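import Mathlib

set_option autoImplicit false

/-! The number of nondegenerate common zeros of polynomials is at most the product of the degrees. -/

namespace Pool.Agent.H596.Bez

open Finset MvPolynomial

variable {K : Type*} [Field K] {M : ℕ}

/-! ### counting exponents -/

/-- exponents of weighted degree at most `D` -/
def W (d : Fin M → ℕ) (D : ℕ) : Finset (Fin M → ℕ) :=
  (Fintype.piFinset fun _ => range (D + 1)).filter (fun α => ∑ i, α i * d i ≤ D)

theorem mem_W {d : Fin M → ℕ} (hd : ∀ i, 1 ≤ d i) {D : ℕ} {α : Fin M → ℕ} :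
    α ∈ W d D ↔ ∑ i, α i * d i ≤ D := by
  rw [W, mem_filter, Fintype.mem_piFinset]
  refine ⟨fun h => h.2, fun h => ⟨fun i => ?_, h⟩⟩
  rw [mem_range, Nat.lt_succ_iff]
  calc α i ≤ α i * d i := Nat.le_mul_of_pos_right _ (hd i)
    _ ≤ ∑ i, α i * d i := single_le_sum (f := fun i => α i * d i) (fun _ _ => Nat.zero_le _) (mem_univ i)
    _ ≤ D := h

theorem card_W_le (d : Fin M → ℕ) (D : ℕ) : (W d D).card ≤ (D + 1) ^ M := by
  refine (card_filter_le _ _).trans ?_
  rw [Fintype.card_piFinset]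
  simp

theorem card_W_pos {d : Fin M → ℕ} (hd : ∀ i, 1 ≤ d i) (D : ℕ) : 0 < (W d D).card := by
  refine card_pos.2 ⟨0, ?_⟩
  rw [mem_W hd]
  simp

theorem card_W_one (d : Fin M → ℕ) (hd : ∀ i, 1 ≤ d i) (D : ℕ) :
    (W (fun _ : Fin M => 1) D).card ≤ (∏ i, d i) * (W d D).card := by
  classical
  have h1 : ∏ i, d i = (Fintype.piFinset fun i => range (d i)).card := by
    rw [Fintype.card_piFinset]; simp
  rw [h1, ← card_product]
  refine card_le_card_of_injOn (fun α => (fun i => α i % d i, fun i => α i / d i)) ?_ ?_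
  · intro α hα
    rw [mem_coe, mem_W (fun _ => le_rfl)] at hα
    rw [mem_coe, mem_product]
    refine ⟨?_, ?_⟩
    · rw [Fintype.mem_piFinset]
      intro i
      rw [mem_range]
      exact Nat.mod_lt _ (hd i)
    · rw [mem_W hd]
      refine le_trans (sum_le_sum fun i _ => ?_) hα
      rw [mul_one]
      exact Nat.div_mul_le_self _ _
  · intro α _ β _ h
    have h1 := congrArg Prod.fst h
    have h2 := congrArg Prod.snd h
    funext i
    have e1 := congrFun h1 i
    have e2 := congrFun h2 i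
    simp only at e1 e2
    rw [← Nat.div_add_mod (α i) (d i), ← Nat.div_add_mod (β i) (d i), e1, e2]

/-- the growth argument -/
theorem growth (w : ℕ → ℕ) (z N g M : ℕ) (hpos : 0 < w 0) (hw : ∀ D, w D ≤ (D + 1) ^ M)
    (h : ∀ D, z * w D ≤ N * w (D + g)) : z ≤ N := by
  by_contra hlt
  push Not at hlt
  have hN : 0 < N := by
    rcases Nat.eq_zero_or_pos N with h0 | h0
    · exfalso
      have := h 0
      rw [h0, zero_mul] at this
      have h1 : 0 < z * w 0 := Nat.mul_pos (by omega) hpos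
      omega
    · exact h0
  have hk : ∀ k, ((z : ℝ) / N) ^ k ≤ w (k * g) := by
    intro k
    induction k with
    | zero =>
      rw [pow_zero, Nat.zero_mul]
      exact_mod_cast hpos
    | succ k ih =>
      have h1 : (z : ℝ) * w (k * g) ≤ N * w (k * g + g) := by exact_mod_cast h (k * g)
      have hNr : (0 : ℝ) < N := by exact_mod_cast hN
      have h2 : (z : ℝ) / N * w (k * g) ≤ w (k * g + g) := by
        rw [div_mul_eq_mul_div, div_le_iff₀ hNr]
        linarith
      have h3 : (0 : ℝ) ≤ (z : ℝ) / N := by positivity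
      calc ((z : ℝ) / N) ^ (k + 1) = (z : ℝ) / N * ((z : ℝ) / N) ^ k := by rw [pow_succ]; ring
        _ ≤ (z : ℝ) / N * w (k * g) := mul_le_mul_of_nonneg_left ih h3
        _ ≤ w (k * g + g) := h2
        _ = w ((k + 1) * g) := by rw [Nat.succ_mul]
  have hr : 1 < (z : ℝ) / N := by
    rw [one_lt_div (by exact_mod_cast hN)]
    exact_mod_cast hlt
  have hlim : Filter.Tendsto (fun k : ℕ => (k : ℝ) ^ M * (((z : ℝ) / N)⁻¹) ^ k) Filter.atTop
      (nhds 0) := by
    apply tendsto_pow_const_mul_const_pow_of_lt_one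
    · positivity
    · exact inv_lt_one_of_one_lt₀ hr
  have hev := (hlim.eventually (gt_mem_nhds (show (0 : ℝ) < ((g + 1 : ℕ) : ℝ)⁻¹ ^ M * (1 / 2) ^ M by
    positivity))).and (Filter.eventually_ge_atTop 1)
  obtain ⟨k, hk1, hk2⟩ := hev.exists
  have h1 : (w (k * g) : ℝ) ≤ ((k * g + 1 : ℕ) : ℝ) ^ M := by exact_mod_cast hw (k * g)
  have h2 : ((k * g + 1 : ℕ) : ℝ) ≤ k * ((g + 1 : ℕ) : ℝ) := by
    push_cast
    have : (1 : ℝ) ≤ k := by exact_mod_cast hk2
    nlinarith
  have h3 : ((z : ℝ) / N) ^ k ≤ (k : ℝ) ^ M * ((g + 1 : ℕ) : ℝ) ^ M := by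
    refine (hk k).trans (h1.trans ?_)
    rw [← mul_pow]
    exact pow_le_pow_left₀ (by positivity) h2 M
  have hgpos : (0 : ℝ) < ((g + 1 : ℕ) : ℝ) ^ M := by positivity
  have hzpos : (0 : ℝ) < ((z : ℝ) / N) ^ k := by positivity
  have h4 : 1 ≤ (k : ℝ) ^ M * (((z : ℝ) / N)⁻¹) ^ k * ((g + 1 : ℕ) : ℝ) ^ M := by
    rw [inv_pow]
    have : (k : ℝ) ^ M * (((z : ℝ) / N) ^ k)⁻¹ * ((g + 1 : ℕ) : ℝ) ^ M =
      ((k : ℝ) ^ M * ((g + 1 : ℕ) : ℝ) ^ M) / ((z : ℝ) / N) ^ k := by ring
    rw [this, le_div_iff₀ hzpos, one_mul]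
    exact h3
  have h5 : (k : ℝ) ^ M * (((z : ℝ) / N)⁻¹) ^ k * ((g + 1 : ℕ) : ℝ) ^ M <
      ((g + 1 : ℕ) : ℝ)⁻¹ ^ M * (1 / 2) ^ M * ((g + 1 : ℕ) : ℝ) ^ M :=
    mul_lt_mul_of_pos_right hk1 hgpos
  have h6 : ((g + 1 : ℕ) : ℝ)⁻¹ ^ M * (1 / 2) ^ M * ((g + 1 : ℕ) : ℝ) ^ M = (1 / 2) ^ M := by
    rw [inv_pow]; field_simp
  rw [h6] at h5
  have h7 : ((1 : ℝ) / 2) ^ M ≤ 1 := pow_le_one₀ (by norm_num) (by norm_num)
  linarith

/-! ### linear independence -/

/-- polynomials vanishing at the other points of a finite set -/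
theorem exists_sep (Z : Finset (Fin M → K)) :
    ∃ g : (Fin M → K) → MvPolynomial (Fin M) K, ∀ a, eval a (g a) ≠ 0 ∧
      ∀ b ∈ Z, b ≠ a → eval b (g a) = 0 := by
  classical
  have h : ∀ a b : Fin M → K, ∃ q : MvPolynomial (Fin M) K, a ≠ b → eval b q = 0 ∧ eval a q ≠ 0 := by
    intro a b
    by_cases hab : a = b
    · exact ⟨0, fun h => absurd hab h⟩
    · obtain ⟨i, hi⟩ := Function.ne_iff.1 hab
      refine ⟨X i - C (b i), fun _ => ⟨by simp, ?_⟩⟩
      simpa [sub_eq_zero] using hi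
  choose q hq using h
  refine ⟨fun a => ∏ b ∈ Z.erase a, q a b, fun a => ⟨?_, fun b hb hba => ?_⟩⟩
  · rw [map_prod]
    exact prod_ne_zero_iff.2 fun b hb => (hq a b (ne_of_mem_erase hb).symm).2
  · rw [map_prod]
    exact prod_eq_zero (mem_erase.2 ⟨hba, hb⟩) (hq a b hba.symm).1

/-- the substitution `x = z + w T` -/
noncomputable def sub (z w : Fin M → K) : MvPolynomial (Fin M) K →ₐ[K] Polynomial K :=
  aeval (fun i => Polynomial.C (z i) + Polynomial.C (w i) * Polynomial.X)

theorem sub_coeff_zero (z w : Fin M → K) (f : MvPolynomial (Fin M) K) :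
    (sub z w f).coeff 0 = eval z f := by
  rw [Polynomial.coeff_zero_eq_eval_zero]
  have : ((Polynomial.evalRingHom (0 : K)).comp (sub z w).toRingHom) = eval z := by
    apply MvPolynomial.ringHom_ext
    · intro r
      simp [sub]
    · intro i
      simp [sub]
  have h := congrArg (fun φ => φ f) this
  simpa using h

/-- a combination of monomials that vanishes everywhere has zero coefficients -/
theorem monomials [Infinite K] (s : Finset (Fin M → ℕ)) (c : (Fin M → ℕ) → K)
    (h : ∀ u : Fin M → K, ∑ α ∈ s, c α * ∏ j, u j ^ α j = 0) (α : Fin M → ℕ) (hα : α ∈ s) : c α = 0 := by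
  classical
  let φ : (Fin M → ℕ) → (Fin M →₀ ℕ) := fun α => Finsupp.equivFunOnFinite.symm α
  have hφ : Function.Injective φ := Finsupp.equivFunOnFinite.symm.injective
  have hP : (∑ α ∈ s, monomial (φ α) (c α) : MvPolynomial (Fin M) K) = 0 := by
    apply MvPolynomial.funext
    intro u
    rw [map_sum, map_zero, ← h u]
    refine sum_congr rfl fun α _ => ?_
    rw [eval_monomial]
    congr 1
    rw [Finsupp.prod_fintype _ _ (fun i => by simp)]
    rfl
  have := congrArg (coeff (φ α)) hP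
  rw [coeff_sum, coeff_zero] at this
  rw [← this, sum_eq_single α]
  · simp
  · intro β _ hβ
    rw [coeff_monomial, if_neg fun h => hβ (hφ h)]
  · intro h; exact absurd hα h

/-- the products `g_a F_a ^ α` are linearly independent -/
theorem indep [Infinite K] (Z : Finset (Fin M → K)) (g : (Fin M → K) → MvPolynomial (Fin M) K)
    (hg : ∀ a, eval a (g a) ≠ 0 ∧ ∀ b ∈ Z, b ≠ a → eval b (g a) = 0)
    (F : (Fin M → K) → Fin M → MvPolynomial (Fin M) K)
    (h0 : ∀ a ∈ Z, ∀ z ∈ Z, ∀ j, eval z (F a j) = 0)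
    (h1 : ∀ z ∈ Z, ∀ u : Fin M → K, ∃ w : Fin M → K, ∀ j, (sub z w (F z j)).coeff 1 = u j)
    (s : Finset (Fin M → ℕ)) (c : (Fin M → K) → (Fin M → ℕ) → K)
    (hQ : ∑ a ∈ Z, ∑ α ∈ s, c a α • (g a * ∏ j, F a j ^ α j) = 0) (a : Fin M → K) (ha : a ∈ Z)
    (α : Fin M → ℕ) (hα : α ∈ s) : c a α = 0 := by
  classical
  by_contra hne
  obtain ⟨p0, hp0, hmin⟩ := Finset.exists_min_image
    ((Z ×ˢ s).filter fun p => c p.1 p.2 ≠ 0)
    (fun p => ∑ j, p.2 j) ⟨(a, α), by simp [ha, hα, hne]⟩
  rw [mem_filter, mem_product] at hp0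
  obtain ⟨b, hb⟩ : ∃ b, b = p0.1 := ⟨_, rfl⟩
  obtain ⟨t, ht⟩ : ∃ t, t = ∑ j, p0.2 j := ⟨_, rfl⟩
  have hbZ : b ∈ Z := by rw [hb]; exact hp0.1.1
  have hkey : ∀ u : Fin M → K, ∑ α ∈ s,
      (if ∑ j, α j = t then c b α else 0) * ∏ j, u j ^ α j = 0 := by
    intro u
    obtain ⟨w, hw⟩ := h1 b hbZ u
    have hq : ∀ a ∈ Z, ∀ j, sub b w (F a j) = (sub b w (F a j)).divX * Polynomial.X := by
      intro a ha j
      conv_lhs => rw [← Polynomial.divX_mul_X_add (sub b w (F a j))]
      rw [sub_coeff_zero, h0 a ha b hbZ j, map_zero, add_zero]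
    have hcoef : ∀ a ∈ Z, ∀ α ∈ s, c a α * (sub b w (g a * ∏ j, F a j ^ α j)).coeff t =
        if a = b then (if ∑ j, α j = t then c b α else 0) * (eval b (g b) *
          ∏ j, u j ^ α j) else 0 := by
      intro a ha α hα
      by_cases hcp : c a α = 0
      · by_cases hab : a = b
        · rw [hab] at hcp
          simp [hcp, hab]
        · simp [hcp, hab]
      have hle : t ≤ ∑ j, α j := by
        rw [ht]; exact hmin (a, α) (by simp [ha, hα, hcp])
      have hG : sub b w (g a * ∏ j, F a j ^ α j) = (sub b w (g a) * ∏ j, (sub b w (F a j)).divX ^ α j) *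
          Polynomial.X ^ (∑ j, α j) := by
        rw [map_mul, map_prod, mul_assoc, ← prod_pow_eq_pow_sum, ← prod_mul_distrib]
        congr 1
        refine prod_congr rfl fun j _ => ?_
        rw [map_pow, ← mul_pow, ← hq a ha]
      rw [hG, Polynomial.coeff_mul_X_pow']
      by_cases hpt : ∑ j, α j = t
      · rw [if_pos hpt.le, hpt, Nat.sub_self, Polynomial.mul_coeff_zero, sub_coeff_zero, if_pos rfl]
        by_cases hpb : a = b
        · subst hpb
          have h3 : (∏ j, (sub a w (F a j)).divX ^ α j).coeff 0 = ∏ j, u j ^ α j := by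
            rw [Polynomial.coeff_zero_eq_eval_zero, Polynomial.eval_prod]
            refine prod_congr rfl fun j _ => ?_
            rw [Polynomial.eval_pow, ← Polynomial.coeff_zero_eq_eval_zero, Polynomial.coeff_divX, hw]
          rw [h3, if_pos rfl]
        · rw [if_neg hpb, (hg a).2 b hbZ (fun h => hpb h.symm)]
          ring
      · rw [if_neg (by omega), if_neg hpt]
        simp
    have h4 : ∑ a ∈ Z, ∑ α ∈ s, c a α * (sub b w (g a * ∏ j, F a j ^ α j)).coeff t = 0 := by
      have h5 := congrArg (fun f => (sub b w f).coeff t) hQ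
      simp only [map_sum, map_smul, map_zero, Polynomial.finsetSum_coeff, Polynomial.coeff_smul,
        smul_eq_mul, Polynomial.coeff_zero] at h5
      exact h5
    rw [sum_congr rfl fun a ha => sum_congr rfl fun α hα => hcoef a ha α hα] at h4
    rw [sum_eq_single b (fun a _ hab => by simp [hab]) (fun h => absurd hbZ h)] at h4
    simp only [if_true] at h4
    have h6 : eval b (g b) * ∑ α ∈ s,
      (if ∑ j, α j = t then c b α else 0) * ∏ j, u j ^ α j = 0 := by
      refine Eq.trans ?_ h4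
      rw [mul_sum]
      exact sum_congr rfl fun α _ => by ring
    exact (mul_eq_zero.1 h6).resolve_left (hg b).1
  have h7 := monomials s (fun α => if ∑ j, α j = t then c b α else 0) hkey p0.2 hp0.1.2
  simp only [← ht, if_true] at h7
  exact hp0.2 (by rw [← h7, hb])

/-- **Bezout bound for nondegenerate zeros.** `Z` is a finite set of points and for each point `z` of `Z` the
polynomials `F z j` of degree at most `d j` vanish at all points of `Z` and have independent differentials at `z`.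
Then `Z` has at most `∏ d j` points. -/
theorem bezout [Infinite K] (d : Fin M → ℕ) (hd : ∀ i, 1 ≤ d i) (Z : Finset (Fin M → K))
    (F : (Fin M → K) → Fin M → MvPolynomial (Fin M) K)
    (hF : ∀ a ∈ Z, ∀ j, (F a j).totalDegree ≤ d j)
    (h0 : ∀ a ∈ Z, ∀ z ∈ Z, ∀ j, eval z (F a j) = 0)
    (h1 : ∀ z ∈ Z, ∀ u : Fin M → K, ∃ w : Fin M → K, ∀ j, (sub z w (F z j)).coeff 1 = u j) :
    Z.card ≤ ∏ j, d j := by
  classical
  obtain ⟨g, hg⟩ := exists_sep Z
  obtain ⟨e, hge⟩ : ∃ e : ℕ, ∀ a ∈ Z, (g a).totalDegree ≤ e :=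
    ⟨∑ a ∈ Z, (g a).totalDegree, fun a ha =>
      single_le_sum (f := fun a => (g a).totalDegree) (fun _ _ => Nat.zero_le _) ha⟩
  refine growth (fun D => (W d D).card) Z.card (∏ j, d j) e M (card_W_pos hd 0) (card_W_le d) ?_
  intro D
  show Z.card * (W d D).card ≤ _
  refine le_trans ?_ (card_W_one d hd (D + e))
  by_contra hlt
  rw [not_le] at hlt
  let G : (Fin M → K) → (Fin M → ℕ) → MvPolynomial (Fin M) K := fun a α => g a * ∏ j, F a j ^ α j
  let T : ({a // a ∈ Z} × {α // α ∈ W d D} → K) →ₗ[K] ({α // α ∈ W (fun _ : Fin M => 1) (D + e)} → K) :=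
    { toFun := fun c v => ∑ p, c p * coeff (Finsupp.equivFunOnFinite.symm v.1) (G p.1 p.2)
      map_add' := by intro c c'; funext v; simp [add_mul, sum_add_distrib]
      map_smul' := by intro t c; funext v; simp [mul_sum, mul_assoc] }
  have hker : LinearMap.ker T ≠ ⊥ := by
    apply LinearMap.ker_ne_bot_of_finrank_lt
    rw [Module.finrank_fintype_fun_eq_card, Module.finrank_fintype_fun_eq_card, Fintype.card_prod,
      Fintype.card_coe, Fintype.card_coe, Fintype.card_coe]
    exact hlt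
  obtain ⟨c, hc, hc0⟩ := Submodule.exists_mem_ne_zero_of_ne_bot hker
  have hGd : ∀ a ∈ Z, ∀ α ∈ W d D, (G a α).totalDegree ≤ D + e := by
    intro a ha α hα
    rw [mem_W hd] at hα
    calc (G a α).totalDegree ≤ (g a).totalDegree + (∏ j, F a j ^ α j).totalDegree :=
          totalDegree_mul _ _
      _ ≤ e + ∑ j : Fin M, α j * d j := by
          apply Nat.add_le_add (hge a ha)
          refine (totalDegree_finsetProd _ _).trans (sum_le_sum fun j _ => ?_)
          refine (totalDegree_pow _ _).trans ?_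
          exact Nat.mul_le_mul le_rfl (hF a ha j)
      _ ≤ D + e := by omega
  have hQ : ∑ p : {a // a ∈ Z} × {α // α ∈ W d D}, c p • G p.1 p.2 = 0 := by
    ext m
    rw [coeff_zero]
    by_cases hm : ∑ i, m i ≤ D + e
    · have h2 := congrFun (LinearMap.mem_ker.1 hc) ⟨fun i => m i, by
        rw [mem_W (fun _ => le_rfl)]; simpa using hm⟩
      simp only [T, LinearMap.coe_mk, AddHom.coe_mk, Pi.zero_apply] at h2
      rw [coeff_sum, ← h2]
      refine sum_congr rfl fun p _ => ?_
      rw [coeff_smul, smul_eq_mul]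
      congr 2
      ext i
      simp
    · rw [coeff_sum]
      apply sum_eq_zero
      intro p _
      rw [coeff_smul, smul_eq_mul]
      have : coeff m (G p.1 p.2) = 0 := by
        apply coeff_eq_zero_of_totalDegree_lt
        refine lt_of_le_of_lt (hGd p.1 p.1.2 p.2 p.2.2) ?_
        push Not at hm
        rwa [show (∑ i ∈ m.support, m i) = ∑ i, m i from
          sum_subset (subset_univ _) (fun i _ hi => by simpa using hi)]
      rw [this, mul_zero]
  apply hc0
  funext p
  let c' : (Fin M → K) → (Fin M → ℕ) → K := fun a α =>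
    if h : a ∈ Z ∧ α ∈ W d D then c (⟨a, h.1⟩, ⟨α, h.2⟩) else 0
  have hc' : ∑ a ∈ Z, ∑ α ∈ W d D, c' a α • (g a * ∏ j, F a j ^ α j) = 0 := by
    rw [← hQ, Fintype.sum_prod_type, ← sum_coe_sort Z]
    refine sum_congr rfl fun a _ => ?_
    rw [← sum_coe_sort (W d D)]
    refine sum_congr rfl fun α _ => ?_
    simp only [c', G, a.2, α.2, and_self, dif_pos]
  have := indep Z g hg F h0 h1 (W d D) c' hc' p.1 p.1.2 p.2 p.2.2
  simpa [c', p.1.2, p.2.2] using this

end Pool.Agent.H596.Bez
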