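import Pool.Agent.H867.FT.Gen10

/-! FTX RND: a criterion for a local ring to be a normal domain. -/

set_option autoImplicit false

namespace Pool.Agent.H596.FT867RND

open nonZeroDivisors

theorem dom (S : Type) [CommRing S] [IsLocalRing S] [IsNoetherianRing S] [IsReduced S]
    (H : ∀ (a b : S) (N : ℕ), (∀ x, b * x = 0 → x = 0) →
      (∀ n, ∃ w, b ^ N * a ^ n = b ^ n * w) → ∃ z, a = b * z) : IsDomain S := by
  have key : ∀ u v : S, u * v = 0 → u = 0 ∨ v = 0 := by
    intro u v huv
    by_contra hcon
    rw [not_or] at hcon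
    obtain ⟨hu, hv⟩ := hcon
    -- the annihilator ideals
    let I : Ideal S :=
      { carrier := {x | x * u = 0}
        add_mem' := by
          intro a b ha hb
          change (a + b) * u = 0
          rw [add_mul, show a * u = 0 from ha, show b * u = 0 from hb, add_zero]
        zero_mem' := zero_mul u
        smul_mem' := by
          intro c x hx
          change (c * x) * u = 0
          rw [mul_assoc, show x * u = 0 from hx, mul_zero] }
    have hI : ∀ x, x ∈ I ↔ x * u = 0 := fun x => Iff.rfl
    let J : Ideal S :=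
      { carrier := {y | ∀ x ∈ I, x * y = 0}
        add_mem' := by
          intro a b ha hb x hx
          rw [mul_add, ha x hx, hb x hx, add_zero]
        zero_mem' := fun x _ => mul_zero x
        smul_mem' := by
          intro c y hy x hx
          rw [smul_eq_mul, mul_left_comm, hy x hx, mul_zero] }
    have hJ : ∀ y, y ∈ J ↔ ∀ x ∈ I, x * y = 0 := fun y => Iff.rfl
    have hex : ∃ b ∈ I ⊔ J, b ∈ S⁰ := by
      by_contra hno
      have hdis : Disjoint ((I ⊔ J : Ideal S) : Set S) (nonZeroDivisors S) := by
        rw [Set.disjoint_left]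
        intro b hb hb'
        exact hno ⟨b, hb, hb'⟩
      have h1 := Ideal.bot_lt_annihilator_of_disjoint_nonZeroDivisors hdis
      obtain ⟨w, hw, hw0⟩ := SetLike.exists_of_lt h1
      rw [Submodule.mem_annihilator] at hw
      have hw0' : w ≠ 0 := fun h => hw0 (by rw [h]; exact Submodule.zero_mem _)
      have hwJ : w ∈ J := by
        rw [hJ]
        intro x hx
        have h2 := hw x (Ideal.mem_sup_left hx)
        rw [smul_eq_mul] at h2
        rw [mul_comm]
        exact h2
      have h3 := hw w (Ideal.mem_sup_right hwJ)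
      rw [smul_eq_mul] at h3
      exact hw0' (IsReduced.eq_zero w ⟨2, by rw [pow_two]; exact h3⟩)
    obtain ⟨b, hb, hb0⟩ := hex
    obtain ⟨x, hx, y, hy, hxy⟩ := Submodule.mem_sup.mp hb
    have hxy0 : x * y = 0 := (hJ y).mp hy x hx
    have hbreg : ∀ t, b * t = 0 → t = 0 := by
      intro t ht
      rw [mem_nonZeroDivisors_iff_right] at hb0
      exact hb0 t (by rw [mul_comm]; exact ht)
    have hbx : b * x = x * x := by
      rw [← hxy, add_mul, mul_comm y x, hxy0, add_zero]
    have hbxn : ∀ n, b ^ n * x = x ^ (n + 1) := by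
      intro n
      induction n with
      | zero => simp
      | succ n ih =>
        calc b ^ (n + 1) * x = b * (b ^ n * x) := by ring
          _ = b * x ^ (n + 1) := by rw [ih]
          _ = (b * x) * x ^ n := by ring
          _ = x * x * x ^ n := by rw [hbx]
          _ = x ^ (n + 1 + 1) := by ring
    have hw : ∀ n, ∃ w, b ^ 1 * x ^ n = b ^ n * w := by
      intro n
      rcases n with _ | n
      · exact ⟨b, by simp⟩
      · refine ⟨x, ?_⟩
        rw [hbxn (n + 1), pow_one]
        calc b * x ^ (n + 1) = (b * x) * x ^ n := by ring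
          _ = x * x * x ^ n := by rw [hbx]
          _ = x ^ (n + 1 + 1) := by ring
    obtain ⟨z, hz⟩ := H x b 1 hbreg hw
    have hyz : y = b * (1 - z) := by
      rw [mul_sub, mul_one, ← hz, ← hxy]
      ring
    rcases IsLocalRing.isUnit_or_isUnit_one_sub_self z with hzu | hzu
    · -- `y = 0`
      have hy0 : y = 0 := by
        apply hbreg
        obtain ⟨z', hz'⟩ := hzu.exists_right_inv
        have : b * y = z' * (x * y) + 0 := by
          rw [hz]
          linear_combination (-(b * y)) * hz'
        rw [this, hxy0, mul_zero, add_zero]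
      rw [hy0, add_zero] at hxy
      apply hu
      apply hbreg
      rw [← hxy]
      exact (hI x).mp hx
    · have hx0 : x = 0 := by
        apply hbreg
        obtain ⟨z', hz'⟩ := hzu.exists_right_inv
        have : b * x = z' * (x * y) + 0 := by
          rw [hyz]
          linear_combination (-(b * x)) * hz'
        rw [this, hxy0, mul_zero, add_zero]
      rw [hx0, zero_add] at hxy
      apply hv
      apply hbreg
      rw [← hxy, mul_comm]
      exact (hJ y).mp hy v ((hI v).mpr (by rw [mul_comm]; exact huv))
  have : NoZeroDivisors S := ⟨fun {a b} h => key a b h⟩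
  exact NoZeroDivisors.to_isDomain S

theorem icl (S : Type) [CommRing S] [IsDomain S]
    (H : ∀ (a b : S) (N : ℕ), (∀ x, b * x = 0 → x = 0) →
      (∀ n, ∃ w, b ^ N * a ^ n = b ^ n * w) → ∃ z, a = b * z) : IsIntegrallyClosed S := by
  rw [isIntegrallyClosed_iff (FractionRing S)]
  intro x hx
  obtain ⟨r, hr, hrx⟩ := hx.isAlmostIntegral
  obtain ⟨a, b, hb, hab⟩ := IsFractionRing.div_surjective (A := S) x
  have hb0 : b ≠ 0 := nonZeroDivisors.ne_zero hb
  have hr0 : r ≠ 0 := nonZeroDivisors.ne_zero hr
  have hbr0 : b * r ≠ 0 := mul_ne_zero hb0 hr0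
  have inj := IsFractionRing.injective S (FractionRing S)
  have hbK : algebraMap S (FractionRing S) b ≠ 0 := fun h => hb0 (inj (by rw [h, map_zero]))
  have hax : algebraMap S (FractionRing S) a = algebraMap S (FractionRing S) b * x := by
    rw [← hab, mul_div_cancel₀ _ hbK]
  obtain ⟨z, hz⟩ := H (a * r) (b * r) 1
    (fun t ht => (mul_eq_zero.mp ht).resolve_left hbr0) (by
      intro n
      obtain ⟨y, hy⟩ := hrx n
      refine ⟨b * y, ?_⟩
      apply inj
      have hy' : algebraMap S (FractionRing S) y = algebraMap S (FractionRing S) r * x ^ n := by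
        rw [hy, Algebra.smul_def]
      simp only [map_mul, map_pow]
      rw [hax, hy']
      ring)
  refine ⟨z, ?_⟩
  have hz2 : a = b * z := by
    apply mul_right_cancel₀ hr0
    rw [hz]
    ring
  have h3 := congrArg (algebraMap S (FractionRing S)) hz2
  rw [hax, map_mul] at h3
  exact (mul_left_cancel₀ hbK h3).symm

theorem rnd : Pool.Agent.H867.FT.S_RND := by
  intro S _ _ _ _ H
  have := dom S H
  exact ⟨inferInstance, icl S H⟩

end Pool.Agent.H596.FT867RND
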