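import Mathlib

set_option autoImplicit false

/-! Isotropic vectors of symmetric bilinear maps all of whose partial maps have rank at least `dim - 1`. -/

namespace Pool.Agent.H596.Four

variable {k U V : Type*} [Field k] [AddCommGroup U] [Module k U] [AddCommGroup V] [Module k V]

/-- all partial maps have kernels of dimension at most one -/
def Small (P : U →ₗ[k] U →ₗ[k] V) : Prop :=
  ∀ x : U, x ≠ 0 → ∀ y₁ y₂ : U, P x y₁ = 0 → P x y₂ = 0 → ∃ p q : k, ¬ (p = 0 ∧ q = 0) ∧ p • y₁ + q • y₂ = 0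

/-- pairwise independent vectors -/
def Pw {ι : Type*} (z : ι → U) : Prop := (∀ i, z i ≠ 0) ∧ ∀ i j, i ≠ j → ∀ r : k, z j ≠ r • z i

theorem pair_false {z₁ z₂ : U} (h1 : z₁ ≠ 0) (h2 : ∀ r : k, z₂ ≠ r • z₁) {a b : k}
    (h : a • z₁ + b • z₂ = 0) : a = 0 ∧ b = 0 := by
  have hb : b = 0 := by
    by_contra hb
    refine h2 (-(b⁻¹ * a)) ?_
    have h3 : b • z₂ = -(a • z₁) := by rw [eq_neg_iff_add_eq_zero, add_comm]; exact h
    have h4 := congrArg (fun v => b⁻¹ • v) h3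
    simp only [smul_smul, inv_mul_cancel₀ hb, one_smul, smul_neg] at h4
    rw [h4, neg_smul]
  refine ⟨?_, hb⟩
  rw [hb, zero_smul, add_zero] at h
  exact (smul_eq_zero.1 h).resolve_right h1

theorem three_aux (h2 : (2 : k) ≠ 0) {P : U →ₗ[k] U →ₗ[k] V} (hs : ∀ x y, P x y = P y x) (hP : Small P)
    {z₁ z₂ : U} (h0 : z₁ ≠ 0) (h12 : ∀ r : k, z₂ ≠ r • z₁) (e1 : P z₁ z₁ = 0) (e2 : P z₂ z₂ = 0)
    {a b : k} (ha : a ≠ 0) (hb : b ≠ 0) (e3 : P (a • z₁ + b • z₂) (a • z₁ + b • z₂) = 0) : False := by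
  have h3 : (2 * (a * b)) • P z₁ z₂ = 0 := by
    rw [← e3]
    simp only [map_add, map_smul, LinearMap.add_apply, LinearMap.smul_apply, e1, e2, hs z₂ z₁, smul_zero,
      add_zero, zero_add, smul_smul, ← add_smul]
    congr 1
    ring
  have h4 : P z₁ z₂ = 0 := (smul_eq_zero.1 h3).resolve_left (mul_ne_zero h2 (mul_ne_zero ha hb))
  obtain ⟨p, q, hpq, h5⟩ := hP z₁ h0 z₁ z₂ e1 h4
  exact hpq (pair_false h0 h12 h5)

theorem three (h2 : (2 : k) ≠ 0) {P : U →ₗ[k] U →ₗ[k] V} (hs : ∀ x y, P x y = P y x) (hP : Small P)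
    {z₁ z₂ z₃ : U} (h0 : z₁ ≠ 0) (h12 : ∀ r : k, z₂ ≠ r • z₁) (h13 : ∀ r : k, z₃ ≠ r • z₁)
    (h23 : ∀ r : k, z₃ ≠ r • z₂) (e1 : P z₁ z₁ = 0) (e2 : P z₂ z₂ = 0) (e3 : P z₃ z₃ = 0)
    {a b c : k} (h : a • z₁ + b • z₂ + c • z₃ = 0) : a = 0 ∧ b = 0 ∧ c = 0 := by
  have hc : c = 0 := by
    by_contra hc
    have h3 : c • z₃ = -(a • z₁ + b • z₂) := by rw [eq_neg_iff_add_eq_zero, add_comm]; exact h
    have h4 : z₃ = (-(c⁻¹ * a)) • z₁ + (-(c⁻¹ * b)) • z₂ := by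
      have h5 := congrArg (fun v => c⁻¹ • v) h3
      simp only [smul_smul, inv_mul_cancel₀ hc, one_smul, smul_neg, smul_add] at h5
      rw [h5, neg_smul, neg_smul, neg_add]
    have ha : -(c⁻¹ * a) ≠ 0 := by
      intro ha
      rw [ha, zero_smul, zero_add] at h4
      exact h23 _ h4
    have hb : -(c⁻¹ * b) ≠ 0 := by
      intro hb
      rw [hb, zero_smul, add_zero] at h4
      exact h13 _ h4
    rw [h4] at e3
    exact three_aux h2 hs hP h0 h12 e1 e2 ha hb e3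
  rw [hc, zero_smul, add_zero] at h
  obtain ⟨h3, h4⟩ := pair_false h0 h12 h
  exact ⟨h3, h4, hc⟩

theorem four_aux (h2 : (2 : k) ≠ 0) {P : U →ₗ[k] U →ₗ[k] V} (hs : ∀ x y, P x y = P y x) (hP : Small P)
    {z₁ z₂ z₃ : U} (h0 : z₁ ≠ 0) (h12 : ∀ r : k, z₂ ≠ r • z₁) (h13 : ∀ r : k, z₃ ≠ r • z₁)
    (h23 : ∀ r : k, z₃ ≠ r • z₂) (e1 : P z₁ z₁ = 0) (e2 : P z₂ z₂ = 0) (e3 : P z₃ z₃ = 0)
    (e4 : P (z₁ + z₂ + z₃) (z₁ + z₂ + z₃) = 0) : False := by
  have h3 : (2 : k) • (P z₁ z₂ + P z₁ z₃ + P z₂ z₃) = 0 := by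
    rw [← e4]
    simp only [map_add, LinearMap.add_apply, e1, e2, e3, hs z₂ z₁, hs z₃ z₁, hs z₃ z₂]
    rw [two_smul]
    abel
  have h4 : P z₁ z₂ + P z₁ z₃ + P z₂ z₃ = 0 := (smul_eq_zero.1 h3).resolve_left h2
  have hx : z₁ + z₂ ≠ 0 := by
    intro hx
    exact h12 (-1) (by rw [neg_one_smul, eq_neg_iff_add_eq_zero, add_comm]; exact hx)
  obtain ⟨p, q, hpq, h5⟩ := hP (z₁ + z₂) hx (z₁ + z₃) (z₂ + z₃) (by
      refine Eq.trans ?_ h4
      simp only [map_add, LinearMap.add_apply, e1, hs z₂ z₁]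
      abel) (by
      refine Eq.trans ?_ h4
      simp only [map_add, LinearMap.add_apply, e2]
      abel)
  have h6 : p • z₁ + q • z₂ + (p + q) • z₃ = 0 := by
    rw [← h5, smul_add, smul_add, add_smul]; abel
  obtain ⟨h7, h8, -⟩ := three h2 hs hP h0 h12 h13 h23 e1 e2 e3 h6
  exact hpq ⟨h7, h8⟩

theorem ne_smul_smul {z w : U} {a b : k} (ha : a ≠ 0) (h : ∀ r : k, z ≠ r • w) (r : k) :
    a • z ≠ r • b • w := by
  intro h1
  have h2 := congrArg (fun v => a⁻¹ • v) h1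
  simp only [smul_smul, inv_mul_cancel₀ ha, one_smul] at h2
  exact h _ h2

/-- any four pairwise independent isotropic vectors are linearly independent -/
theorem four (h2 : (2 : k) ≠ 0) {P : U →ₗ[k] U →ₗ[k] V} (hs : ∀ x y, P x y = P y x) (hP : Small P)
    (z : Fin 4 → U) (hz0 : ∀ i, z i ≠ 0) (hz : ∀ i j, i ≠ j → ∀ r : k, z j ≠ r • z i)
    (he : ∀ i, P (z i) (z i) = 0) (c : Fin 4 → k) (h : ∑ i, c i • z i = 0) : c = 0 := by
  rw [Fin.sum_univ_four] at h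
  have hz01 := hz 0 1 (by decide)
  have hz02 := hz 0 2 (by decide)
  have hz03 := hz 0 3 (by decide)
  have hz12 := hz 1 2 (by decide)
  have hz13 := hz 1 3 (by decide)
  have hz23 := hz 2 3 (by decide)
  have h3 : c 3 = 0 := by
    by_contra h3
    obtain ⟨a, b, d, habd⟩ : ∃ a b d : k, z 3 = a • z 0 + b • z 1 + d • z 2 := by
      refine ⟨-((c 3)⁻¹ * c 0), -((c 3)⁻¹ * c 1), -((c 3)⁻¹ * c 2), ?_⟩
      have h4 : c 3 • z 3 = -(c 0 • z 0 + c 1 • z 1 + c 2 • z 2) := by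
        rw [eq_neg_iff_add_eq_zero, add_comm]; exact h
      have h5 := congrArg (fun v => (c 3)⁻¹ • v) h4
      simp only [smul_smul, inv_mul_cancel₀ h3, one_smul, smul_neg, smul_add] at h5
      rw [h5]
      simp only [neg_smul, neg_add]
    have ha : a ≠ 0 := by
      rintro rfl
      have := three h2 hs hP (hz0 1) hz12 hz13 hz23 (he 1) (he 2) (he 3) (a := b) (b := d) (c := -1)
        (by rw [habd]; simp only [zero_smul, neg_smul, one_smul]; abel)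
      exact one_ne_zero (neg_eq_zero.1 this.2.2)
    have hb : b ≠ 0 := by
      rintro rfl
      have := three h2 hs hP (hz0 0) hz02 hz03 hz23 (he 0) (he 2) (he 3) (a := a) (b := d) (c := -1)
        (by rw [habd]; simp only [zero_smul, neg_smul, one_smul]; abel)
      exact one_ne_zero (neg_eq_zero.1 this.2.2)
    have hd : d ≠ 0 := by
      rintro rfl
      have := three h2 hs hP (hz0 0) hz01 hz03 hz13 (he 0) (he 1) (he 3) (a := a) (b := b) (c := -1)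
        (by rw [habd]; simp only [zero_smul, neg_smul, one_smul]; abel)
      exact one_ne_zero (neg_eq_zero.1 this.2.2)
    have e4 := he 3
    rw [habd] at e4
    refine four_aux h2 hs hP (z₁ := a • z 0) (z₂ := b • z 1) (z₃ := d • z 2)
      (smul_ne_zero ha (hz0 0)) (ne_smul_smul hb hz01) (ne_smul_smul hd hz02) (ne_smul_smul hd hz12)
      (by simp [he 0]) (by simp [he 1]) (by simp [he 2]) e4
  rw [h3, zero_smul, add_zero] at h
  obtain ⟨h4, h5, h6⟩ := three h2 hs hP (hz0 0) hz01 hz02 hz12 (he 0) (he 1) (he 2) h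
  funext i
  fin_cases i
  · exact h4
  · exact h5
  · exact h6
  · exact h3

end Pool.Agent.H596.Four
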