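import Mathlib
import Pool.Agent.H596.Bez

set_option autoImplicit false

/-! Isotropic vectors of symmetric bilinear maps. -/

namespace Pool.Agent.H596.Iso

open Finset MvPolynomial

variable {k V : Type*} [Field k] [AddCommGroup V] [Module k V]

theorem exists_chart [Infinite k] {n : ℕ} (Z : Finset (Fin (n + 1) → k)) (hZ : ∀ z ∈ Z, z ≠ 0) :
    ∃ s : k, ∀ z ∈ Z, ∑ i : Fin (n + 1), z i * s ^ (i : ℕ) ≠ 0 := by
  classical
  let p : (Fin (n + 1) → k) → Polynomial k := fun z =>
    ∑ i : Fin (n + 1), Polynomial.C (z i) * Polynomial.X ^ (i : ℕ)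
  have hp : ∀ z ∈ Z, p z ≠ 0 := by
    intro z hz h0
    apply hZ z hz
    funext i
    have := congrArg (fun q => Polynomial.coeff q (i : ℕ)) h0
    simp only [p, Polynomial.finsetSum_coeff, Polynomial.coeff_C_mul, Polynomial.coeff_X_pow,
      Polynomial.coeff_zero, mul_ite, mul_one, mul_zero] at this
    rw [sum_eq_single i] at this
    · simpa using this
    · intro j _ hj
      rw [if_neg]
      exact fun h => hj (Fin.ext h.symm)
    · simp
  have hprod : ∏ z ∈ Z, p z ≠ 0 := prod_ne_zero_iff.2 hp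
  obtain ⟨s, hs⟩ : ∃ s, Polynomial.eval s (∏ z ∈ Z, p z) ≠ 0 := by
    by_contra hcon
    push Not at hcon
    exact hprod (Polynomial.funext fun s => by rw [hcon s, Polynomial.eval_zero])
  refine ⟨s, fun z hz h0 => hs ?_⟩
  rw [Polynomial.eval_prod]
  refine prod_eq_zero hz ?_
  rw [← h0]
  simp [p, Polynomial.eval_finsetSum]

theorem card_isotropic [Infinite k] (h2 : (2 : k) ≠ 0) {n : ℕ}
    (P : (Fin (n + 1) → k) →ₗ[k] (Fin (n + 1) → k) →ₗ[k] V) (hsymm : ∀ x y, P x y = P y x)
    (Z : Finset (Fin (n + 1) → k)) (hZ0 : ∀ z ∈ Z, z ≠ 0)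
    (hZ : ∀ z ∈ Z, ∀ z' ∈ Z, z ≠ z' → ∀ c : k, z' ≠ c • z)
    (hP0 : ∀ z ∈ Z, P z z = 0) (hP : ∀ z ∈ Z, ∀ w, P z w = 0 → ∃ c : k, w = c • z) :
    Z.card ≤ 2 ^ n := by
  classical
  obtain ⟨s, hs⟩ := exists_chart Z hZ0
  let ℓ : (Fin (n + 1) → k) →ₗ[k] k :=
    { toFun := fun z => ∑ i : Fin (n + 1), z i * s ^ (i : ℕ)
      map_add' := by intro x y; simp [add_mul, sum_add_distrib]
      map_smul' := by intro c x; simp [mul_sum, mul_assoc] }
  have hℓ : ∀ z, ℓ z = ∑ i : Fin (n + 1), z i * s ^ (i : ℕ) := fun _ => rfl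
  have hs : ∀ z ∈ Z, ℓ z ≠ 0 := hs
  let nz : (Fin (n + 1) → k) → (Fin (n + 1) → k) := fun z => (ℓ z)⁻¹ • z
  have hinj : Set.InjOn nz Z := by
    intro z hz z' hz' h
    by_contra hne
    refine hZ z hz z' hz' hne (ℓ z' * (ℓ z)⁻¹) ?_
    have h' : (ℓ z)⁻¹ • z = (ℓ z')⁻¹ • z' := h
    rw [mul_smul, h', smul_smul, mul_inv_cancel₀ (hs z' hz'), one_smul]
  rw [← card_image_of_injOn hinj]
  set Z' := Z.image nz with hZ'
  have hl1 : ∀ z ∈ Z', ℓ z = 1 := by
    intro z hz
    obtain ⟨y, hy, rfl⟩ := mem_image.1 hz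
    show ℓ ((ℓ y)⁻¹ • y) = 1
    rw [map_smul, smul_eq_mul, inv_mul_cancel₀ (hs y hy)]
  have hP0' : ∀ z ∈ Z', P z z = 0 := by
    intro z hz
    obtain ⟨y, hy, rfl⟩ := mem_image.1 hz
    show P ((ℓ y)⁻¹ • y) ((ℓ y)⁻¹ • y) = 0
    simp [hP0 y hy]
  have hP' : ∀ z ∈ Z', ∀ w, P z w = 0 → ∃ c : k, w = c • z := by
    intro z hz w hw
    obtain ⟨y, hy, rfl⟩ := mem_image.1 hz
    have hw' : P ((ℓ y)⁻¹ • y) w = 0 := hw
    rw [map_smul, LinearMap.smul_apply] at hw'
    have := (smul_eq_zero.1 hw').resolve_left (inv_ne_zero (hs y hy))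
    obtain ⟨c, hc⟩ := hP y hy w this
    refine ⟨c * ℓ y, ?_⟩
    show w = (c * ℓ y) • ((ℓ y)⁻¹ • y)
    rw [smul_smul, mul_assoc, mul_inv_cancel₀ (hs y hy), mul_one, hc]
  -- the functionals
  have hdual : ∀ z ∈ Z', ∀ j : Fin (n + 1), ∃ μ : Module.Dual k V, ∀ w, μ (P z w) = w j - z j * ℓ w := by
    intro z hz j
    let ψ : Module.Dual k (Fin (n + 1) → k) := LinearMap.proj j - z j • ℓ
    have hψ : ψ ∈ (LinearMap.ker (P z)).dualAnnihilator := by
      rw [Submodule.mem_dualAnnihilator]
      intro w hw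
      obtain ⟨c, rfl⟩ := hP' z hz w (LinearMap.mem_ker.1 hw)
      show (c • z) j - z j * ℓ (c • z) = 0
      rw [map_smul, hl1 z hz]
      simp only [Pi.smul_apply, smul_eq_mul]
      ring
    rw [← LinearMap.range_dualMap_eq_dualAnnihilator_ker] at hψ
    obtain ⟨μ, hμ⟩ := hψ
    refine ⟨μ, fun w => ?_⟩
    have := congrArg (fun φ => φ w) hμ
    simpa [ψ] using this
  choose! μ hμ using hdual
  have hexp : ∀ (x y : Fin (n + 1) → k), P x y = ∑ i, ∑ j, (x i * y j) • P (Pi.single i 1) (Pi.single j 1) := by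
    intro x y
    have hx : x = ∑ i, x i • (Pi.single i (1 : k) : Fin (n + 1) → k) := by
      conv_lhs => rw [← Finset.univ_sum_single x]
      refine sum_congr rfl fun i _ => ?_
      rw [← Pi.single_smul, smul_eq_mul, mul_one]
    have hy : y = ∑ i, y i • (Pi.single i (1 : k) : Fin (n + 1) → k) := by
      conv_lhs => rw [← Finset.univ_sum_single y]
      refine sum_congr rfl fun i _ => ?_
      rw [← Pi.single_smul, smul_eq_mul, mul_one]
    conv_lhs => rw [hx, hy]
    simp only [map_sum, LinearMap.sum_apply, map_smul, LinearMap.smul_apply, smul_sum, smul_smul]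
    rw [sum_comm]
    refine sum_congr rfl fun i _ => sum_congr rfl fun j _ => ?_
    rw [mul_comm]
  -- the polynomials
  let a : (Fin (n + 1) → k) → Fin (n + 1) → Fin (n + 1) → Fin (n + 1) → k := fun z j i l =>
    μ z j (P (Pi.single i 1) (Pi.single l 1))
  let F : (Fin (n + 1) → k) → Fin (n + 1) → MvPolynomial (Fin (n + 1)) k := fun z =>
    Fin.cons (∑ i : Fin (n + 1), C (s ^ (i : ℕ)) * X i - C 1)
      (fun j => C (2⁻¹) * ∑ i, ∑ l, C (a z j.succ i l) * (X i * X l))
  have hval : ∀ z ∈ Z', ∀ (j : Fin (n + 1)) (x y : Fin (n + 1) → k),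
      ∑ i, ∑ l, a z j i l * (x i * y l) = μ z j (P x y) := by
    intro z _ j x y
    rw [hexp x y, map_sum]
    refine sum_congr rfl fun i _ => ?_
    rw [map_sum]
    refine sum_congr rfl fun l _ => ?_
    rw [map_smul, smul_eq_mul]
    simp only [a]
    ring
  have key := Bez.bezout (K := k) (M := n + 1) (Fin.cons 1 (fun _ => 2)) (by
      intro i
      refine Fin.cases ?_ (fun j => ?_) i
      · simp
      · simp) Z' F ?_ ?_ ?_
  · refine key.trans (le_of_eq ?_)
    rw [Fin.prod_univ_succ]
    simp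
  · -- degrees
    intro z _ j
    refine Fin.cases ?_ (fun j => ?_) j
    · simp only [F, Fin.cons_zero]
      refine (totalDegree_sub _ _).trans (max_le ?_ (by simp))
      refine totalDegree_finsetSum_le fun i _ => ?_
      refine (totalDegree_mul _ _).trans ?_
      rw [totalDegree_C, totalDegree_X]
    · simp only [F, Fin.cons_succ]
      refine (totalDegree_mul _ _).trans ?_
      rw [totalDegree_C, zero_add]
      refine totalDegree_finsetSum_le fun i _ => totalDegree_finsetSum_le fun l _ => ?_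
      refine (totalDegree_mul _ _).trans ?_
      rw [totalDegree_C, zero_add]
      refine (totalDegree_mul _ _).trans ?_
      simp
  · -- zeros
    intro z hz y hy j
    refine Fin.cases ?_ (fun j => ?_) j
    · simp only [F, Fin.cons_zero]
      rw [map_sub, map_sum]
      simp only [map_mul, eval_C, eval_X]
      have := hl1 y hy
      rw [hℓ] at this
      rw [sub_eq_zero, ← this]
      exact sum_congr rfl fun i _ => mul_comm _ _
    · simp only [F, Fin.cons_succ]
      simp only [map_mul, map_sum, eval_C, eval_X]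
      rw [hval z hz, hP0' y hy, map_zero, mul_zero]
  · -- differentials
    intro z hz u
    let w' : Fin n → k := fun j => u j.succ + z j.succ * u 0
    let w : Fin (n + 1) → k := Fin.cons (u 0 - ∑ j : Fin n, w' j * s ^ ((j : ℕ) + 1)) w'
    have hw : ℓ w = u 0 := by
      rw [hℓ, Fin.sum_univ_succ]
      simp [w]
    refine ⟨w, fun j => ?_⟩
    refine Fin.cases ?_ (fun j => ?_) j
    · simp only [F, Fin.cons_zero, Bez.sub]
      simp only [map_sub, map_sum, map_mul, aeval_C, aeval_X, map_one]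
      rw [Polynomial.coeff_sub, Polynomial.finsetSum_coeff, Polynomial.coeff_one]
      simp only [one_ne_zero, if_false, sub_zero]
      rw [← hw, hℓ]
      refine sum_congr rfl fun i _ => ?_
      rw [show (algebraMap k (Polynomial k)) (s ^ (i : ℕ)) = Polynomial.C (s ^ (i : ℕ)) from rfl,
        Polynomial.coeff_C_mul, Polynomial.coeff_add, Polynomial.coeff_C_mul, Polynomial.coeff_X_one,
        Polynomial.coeff_C]
      simp only [one_ne_zero, if_false, zero_add, mul_one]
      ring
    · have e1 : ∀ i l : Fin (n + 1), ((Polynomial.C (z i) + Polynomial.C (w i) * Polynomial.X) *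
          (Polynomial.C (z l) + Polynomial.C (w l) * Polynomial.X)).coeff 1 = z i * w l + w i * z l := by
        intro i l
        have : (Polynomial.C (z i) + Polynomial.C (w i) * Polynomial.X) *
          (Polynomial.C (z l) + Polynomial.C (w l) * Polynomial.X) =
          Polynomial.C (z i * z l) + Polynomial.C (z i * w l + w i * z l) * Polynomial.X +
            Polynomial.C (w i * w l) * Polynomial.X ^ 2 := by
          simp only [Polynomial.C_mul, Polynomial.C_add]
          ring
        rw [this, Polynomial.coeff_add, Polynomial.coeff_add, Polynomial.coeff_C_mul,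
          Polynomial.coeff_C_mul, Polynomial.coeff_X_one, Polynomial.coeff_X_pow, Polynomial.coeff_C]
        simp
      simp only [F, Fin.cons_succ, Bez.sub]
      simp only [map_sum, map_mul, aeval_C, aeval_X]
      rw [show (algebraMap k (Polynomial k)) (2⁻¹ : k) = Polynomial.C (2⁻¹ : k) from rfl,
        Polynomial.coeff_C_mul, Polynomial.finsetSum_coeff]
      have e2 : ∀ i : Fin (n + 1), (∑ l : Fin (n + 1), (algebraMap k (Polynomial k)) (a z j.succ i l) *
          ((Polynomial.C (z i) + Polynomial.C (w i) * Polynomial.X) *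
          (Polynomial.C (z l) + Polynomial.C (w l) * Polynomial.X))).coeff 1 =
          ∑ l, (a z j.succ i l * (z i * w l) + a z j.succ i l * (w i * z l)) := by
        intro i
        rw [Polynomial.finsetSum_coeff]
        refine sum_congr rfl fun l _ => ?_
        rw [show (algebraMap k (Polynomial k)) (a z j.succ i l) = Polynomial.C (a z j.succ i l) from rfl,
          Polynomial.coeff_C_mul, e1]
        ring
      rw [sum_congr rfl fun i _ => e2 i]
      simp only [sum_add_distrib]
      rw [hval z hz, hval z hz, hsymm w z, hμ z hz, hw]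
      have e3 : w j.succ = u j.succ + z j.succ * u 0 := by simp [w, w']
      rw [e3]
      field_simp
      ring

end Pool.Agent.H596.Iso
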