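import Pool.Agent.H857.PD.Core

/-!
# The number of the pairs (ω, a) (task P18)
-/

set_option autoImplicit false

namespace Pool.Agent.H596.PDp18

open Module Polynomial Pool.Agent.W521.Descent Pool.Agent.W521.Density Pool.Agent.W521.Count
  Pool.Agent.X297.UB Pool.Agent.H857.PB Pool.Agent.H857.PA Pool.Agent.H857.HK Pool.Agent.H857.EF
  Pool.Agent.H857.WT Pool.Agent.H857.SG Pool.Agent.H857.PD

/-- the integral real parts -/
def XS (n : ℕ) (B Q : ℝ) : Set (Fin n → ℝ) :=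
  {x | ∀ j, (∃ k : ℤ, x j = k) ∧ |x j| ≤ B * Q ^ ((j : ℕ) + 1)}

/-- the imaginary parts -/
def TS (n : ℕ) (B Q : ℝ) : Set (Fin n → ℝ) :=
  {Y | (∀ i j, ∃ k : ℤ, Y i * Y j = k) ∧ ∀ j, |Y j| ≤ B * Q ^ ((j : ℕ) + 1)}

lemma sum_fin (n : ℕ) : ∑ j : Fin n, ((j : ℕ) + 1) = n * (n + 1) / 2 := by
  have h : (∑ j : Fin n, ((j : ℕ) + 1)) * 2 = n * (n + 1) := by
    induction n with
    | zero => simp
    | succ n ih =>
      rw [Fin.sum_univ_castSucc, add_mul]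
      simp only [Fin.val_castSucc, Fin.val_last]
      rw [ih]
      ring
  omega

lemma xs_card (n : ℕ) (B Q : ℝ) (hB : 0 < B) (hQ : 1 ≤ Q) :
    (XS n B Q).Finite ∧ ((XS n B Q).ncard : ℝ) ≤ (2 * B + 1) ^ n * Q ^ (n * (n + 1) / 2) := by
  classical
  set F : Finset (Fin n → ℤ) := Fintype.piFinset fun j =>
    Finset.Icc (-⌊B * Q ^ ((j : ℕ) + 1)⌋) ⌊B * Q ^ ((j : ℕ) + 1)⌋ with hF
  set G : Finset (Fin n → ℝ) := F.image fun x j => (x j : ℝ) with hG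
  have hsub : XS n B Q ⊆ (G : Set (Fin n → ℝ)) := by
    intro x hx
    choose k hk using fun j => (hx j).1
    rw [hG, Finset.coe_image]
    refine ⟨k, ?_, ?_⟩
    · rw [hF, Finset.mem_coe, Fintype.mem_piFinset]
      intro j
      have h1 := abs_le.1 (hx j).2
      rw [hk j] at h1
      rw [Finset.mem_Icc]
      constructor
      · rw [neg_le, Int.le_floor]
        push_cast
        linarith [h1.1]
      · rw [Int.le_floor]
        exact h1.2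
    · funext j
      exact (hk j).symm
  have hfin : (XS n B Q).Finite := (Finset.finite_toSet G).subset hsub
  refine ⟨hfin, ?_⟩
  have h1 : (XS n B Q).ncard ≤ G.card := by
    have := Set.ncard_le_ncard hsub (Finset.finite_toSet G)
    rwa [Set.ncard_coe_finset] at this
  have h2 : G.card ≤ F.card := Finset.card_image_le
  have h3 : (F.card : ℝ) ≤ (2 * B + 1) ^ n * Q ^ (n * (n + 1) / 2) := by
    rw [hF, Fintype.card_piFinset]
    push_cast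
    have h4 : ∀ j : Fin n, (((Finset.Icc (-⌊B * Q ^ ((j : ℕ) + 1)⌋)
        ⌊B * Q ^ ((j : ℕ) + 1)⌋).card : ℕ) : ℝ) ≤ (2 * B + 1) * Q ^ ((j : ℕ) + 1) := by
      intro j
      have hq : 1 ≤ Q ^ ((j : ℕ) + 1) := one_le_pow₀ hQ
      have h0 : 0 ≤ B * Q ^ ((j : ℕ) + 1) := by positivity
      have hf0 : 0 ≤ ⌊B * Q ^ ((j : ℕ) + 1)⌋ := Int.floor_nonneg.2 h0
      have hf1 : (⌊B * Q ^ ((j : ℕ) + 1)⌋ : ℝ) ≤ B * Q ^ ((j : ℕ) + 1) := Int.floor_le _
      rw [Int.card_Icc]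
      have h5 : (((⌊B * Q ^ ((j : ℕ) + 1)⌋ + 1 - -⌊B * Q ^ ((j : ℕ) + 1)⌋).toNat : ℕ) : ℝ) =
          2 * (⌊B * Q ^ ((j : ℕ) + 1)⌋ : ℝ) + 1 := by
        have h6 : (((⌊B * Q ^ ((j : ℕ) + 1)⌋ + 1 - -⌊B * Q ^ ((j : ℕ) + 1)⌋).toNat : ℕ) : ℤ) =
            2 * ⌊B * Q ^ ((j : ℕ) + 1)⌋ + 1 := by
          rw [Int.toNat_of_nonneg (by omega)]
          ring
        exact_mod_cast h6
      rw [h5]
      nlinarith
    calc ∏ j : Fin n, (((Finset.Icc (-⌊B * Q ^ ((j : ℕ) + 1)⌋)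
        ⌊B * Q ^ ((j : ℕ) + 1)⌋).card : ℕ) : ℝ)
        ≤ ∏ j : Fin n, ((2 * B + 1) * Q ^ ((j : ℕ) + 1)) :=
          Finset.prod_le_prod (fun j _ => Nat.cast_nonneg _) fun j _ => h4 j
      _ = (2 * B + 1) ^ n * Q ^ (n * (n + 1) / 2) := by
          rw [Finset.prod_mul_distrib, Finset.prod_const, Finset.card_univ, Fintype.card_fin,
            Finset.prod_pow_eq_pow_sum, sum_fin]
  calc ((XS n B Q).ncard : ℝ) ≤ (G.card : ℝ) := by exact_mod_cast h1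
    _ ≤ (F.card : ℝ) := by exact_mod_cast h2
    _ ≤ _ := h3

lemma ts_card (h : W19) (n : ℕ) (B : ℝ) (hn : 1 ≤ n) (hB : 0 < B) :
    ∃ D : ℝ, 0 < D ∧ ∀ Q : ℝ, 1 ≤ Q → (TS n B Q).Finite ∧
      ((TS n B Q).ncard : ℝ) ≤ D * Q ^ max (2 * n) (n * (n + 1) / 2) := by
  obtain ⟨D, hD, hh⟩ := h n B hn hB
  refine ⟨D + 1, by linarith, ?_⟩
  intro Q hQ
  obtain ⟨h1, h2⟩ := hh Q hQ
  set U : Set (Fin n → ℝ) := {Y : Fin n → ℝ | (∃ j, Y j ≠ 0) ∧
    (∀ i j, ∃ n : ℤ, Y i * Y j = n) ∧ ∀ j, |Y j| ≤ B * Q ^ ((j : ℕ) + 1)} with hU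
  have hsub : TS n B Q ⊆ insert 0 U := by
    intro Y hY
    by_cases h0 : ∃ j, Y j ≠ 0
    · exact Set.mem_insert_of_mem _ ⟨h0, hY.1, hY.2⟩
    · left
      push Not at h0
      funext j
      exact h0 j
  have hf : (insert 0 U).Finite := h1.insert 0
  refine ⟨hf.subset hsub, ?_⟩
  have h3 : (TS n B Q).ncard ≤ U.ncard + 1 :=
    (Set.ncard_le_ncard hsub hf).trans (Set.ncard_insert_le 0 U)
  have h4 : ((TS n B Q).ncard : ℝ) ≤ (U.ncard : ℝ) + 1 := by exact_mod_cast h3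
  have h5 : (1 : ℝ) ≤ Q ^ max (2 * n) (n * (n + 1) / 2) := one_le_pow₀ hQ
  calc ((TS n B Q).ncard : ℝ) ≤ (U.ncard : ℝ) + 1 := h4
    _ ≤ D * Q ^ max (2 * n) (n * (n + 1) / 2) + Q ^ max (2 * n) (n * (n + 1) / 2) :=
      add_le_add h2 h5
    _ = _ := by ring

/-- the numbers `ω` -/
def ZO (r q : ℕ) : Set ℂ := {ω | ω ^ 24 = (q : ℂ) ^ (12 * (2 * r + 1))}

lemma zo_card (r q : ℕ) : (ZO r q).Finite ∧ (ZO r q).ncard ≤ 24 := by
  classical
  have hsub : ZO r q ⊆ ((nthRoots 24 ((q : ℂ) ^ (12 * (2 * r + 1)))).toFinset : Set ℂ) := by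
    intro ω hω
    rw [Finset.mem_coe, Multiset.mem_toFinset, mem_nthRoots (by norm_num)]
    exact hω
  refine ⟨(Finset.finite_toSet _).subset hsub, ?_⟩
  have h1 := Set.ncard_le_ncard hsub (Finset.finite_toSet _)
  rw [Set.ncard_coe_finset] at h1
  exact h1.trans ((Multiset.toFinset_card_le _).trans (card_nthRoots _ _))

lemma expo (r : ℕ) (hr : 1 ≤ r) :
    r * (r + 1) / 2 + max (2 * r) (r * (r + 1) / 2) ≤ oddOrder (2 * r + 1) := by
  unfold oddOrder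
  by_cases h1 : r = 1
  · subst h1; decide
  by_cases h2 : r = 2
  · subst h2; decide
  have h3 : 3 ≤ r := by omega
  rw [if_neg (by omega), if_neg (by omega)]
  obtain ⟨k, hk⟩ := Nat.even_mul_succ_self r
  have e1 : r * (r + 1) / 2 = k := by rw [hk]; omega
  rw [e1]
  have h5 : 2 * r ≤ k := by nlinarith
  rw [max_eq_right h5]
  have e2 : (2 * r + 1) ^ 2 - 1 = 4 * (r * (r + 1)) := by
    have : (2 * r + 1) ^ 2 = 4 * (r * (r + 1)) + 1 := by ring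
    omega
  rw [e2, hk]
  omega

theorem p18 (h19 : W19) : P18 := by
  intro r hr
  set B : ℝ := 2 * 4 ^ (r + 1) with hBdef
  have hB : 0 < B := by positivity
  obtain ⟨D, hD, k1⟩ := ts_card h19 r B hr hB
  have ex := expo r hr
  refine ⟨24 * ((2 * B + 1) ^ r * D), by positivity, ?_⟩
  intro q hq
  set Q : ℝ := Real.sqrt q with hQdef
  have hQ : 1 ≤ Q := by
    rw [hQdef, Real.one_le_sqrt]
    exact_mod_cast hq
  set S : Set (ℂ × (Fin r → ℂ)) := {t | CondO r q t.1 t.2} with hS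
  have pre : ∀ t ∈ S, ∀ j, ∃ k : ℤ, 2 * (t.2 j).re = k := by
    intro t ht j
    obtain ⟨n, hn⟩ := ht.re j
    refine ⟨n, ?_⟩
    rw [Complex.add_conj] at hn
    exact_mod_cast hn
  have pim : ∀ t ∈ S, ∀ i j, ∃ k : ℤ, 2 * (t.2 i).im * (2 * (t.2 j).im) = k := by
    intro t ht i j
    obtain ⟨n, hn⟩ := ht.im i j
    refine ⟨-n, ?_⟩
    rw [Complex.sub_conj, Complex.sub_conj] at hn
    have h1 : (((2 * (t.2 i).im) * (2 * (t.2 j).im) : ℝ) : ℂ) = ((-n : ℝ) : ℂ) := by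
      have h2 := Complex.I_mul_I
      push_cast at hn ⊢
      linear_combination (-1 : ℂ) * hn + (2 * ((t.2 i).im : ℂ)) * (2 * ((t.2 j).im : ℂ)) * h2
    have h3 := Complex.ofReal_injective h1
    push_cast
    exact h3
  have bre : ∀ t ∈ S, ∀ j, |2 * (t.2 j).re| ≤ B * Q ^ ((j : ℕ) + 1) := by
    intro t ht j
    have h1 := ht.le j
    have h2 := Complex.abs_re_le_norm (t.2 j)
    rw [abs_mul, abs_two, hBdef, mul_assoc]
    linarith
  have bim : ∀ t ∈ S, ∀ j, |2 * (t.2 j).im| ≤ B * Q ^ ((j : ℕ) + 1) := by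
    intro t ht j
    have h1 := ht.le j
    have h2 := Complex.abs_im_le_norm (t.2 j)
    rw [abs_mul, abs_two, hBdef, mul_assoc]
    linarith
  obtain ⟨xf, xc⟩ := xs_card r B Q hB hQ
  obtain ⟨tf, tc⟩ := k1 Q hQ
  obtain ⟨zf, zc⟩ := zo_card r q
  let f : ℂ × (Fin r → ℂ) → ℂ × ((Fin r → ℝ) × (Fin r → ℝ)) := fun t =>
    (t.1, (fun j => 2 * (t.2 j).re), fun j => 2 * (t.2 j).im)
  have m1 : ∀ t ∈ S, f t ∈ ZO r q ×ˢ (XS r B Q ×ˢ TS r B Q) := by
    intro t ht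
    exact ⟨ht.omega, fun j => ⟨pre t ht j, bre t ht j⟩,
      fun i j => pim t ht i j, fun j => bim t ht j⟩
  have i1 : Set.InjOn f S := by
    intro t _ t' _ he
    have e1 : t.1 = t'.1 := congrArg (fun p => p.1) he
    have e2 : ∀ j, 2 * (t.2 j).re = 2 * (t'.2 j).re :=
      fun j => congrFun (congrArg (fun p => p.2.1) he) j
    have e3 : ∀ j, 2 * (t.2 j).im = 2 * (t'.2 j).im :=
      fun j => congrFun (congrArg (fun p => p.2.2) he) j
    refine Prod.ext e1 (funext fun j => ?_)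
    apply Complex.ext
    · linarith [e2 j]
    · linarith [e3 j]
  have Pf : (ZO r q ×ˢ (XS r B Q ×ˢ TS r B Q)).Finite := zf.prod (xf.prod tf)
  refine ⟨Set.Finite.of_injOn m1 i1 Pf, ?_⟩
  have c1 : S.ncard ≤ (ZO r q).ncard * ((XS r B Q).ncard * (TS r B Q).ncard) := by
    have := Set.ncard_le_ncard_of_injOn f m1 i1 Pf
    rwa [Set.ncard_prod, Set.ncard_prod] at this
  have c2 : (S.ncard : ℝ) ≤ ((ZO r q).ncard : ℝ) * (((XS r B Q).ncard : ℝ) *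
      ((TS r B Q).ncard : ℝ)) := by
    exact_mod_cast c1
  have hQ0 : 0 ≤ Q := by linarith
  have d1 : ((XS r B Q).ncard : ℝ) * ((TS r B Q).ncard : ℝ) ≤
      ((2 * B + 1) ^ r * D) * Q ^ oddOrder (2 * r + 1) := by
    calc ((XS r B Q).ncard : ℝ) * ((TS r B Q).ncard : ℝ)
        ≤ ((2 * B + 1) ^ r * Q ^ (r * (r + 1) / 2)) *
          (D * Q ^ max (2 * r) (r * (r + 1) / 2)) :=
          mul_le_mul xc tc (Nat.cast_nonneg _) (by positivity)
      _ = ((2 * B + 1) ^ r * D) *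
          Q ^ (r * (r + 1) / 2 + max (2 * r) (r * (r + 1) / 2)) := by
          rw [pow_add]; ring
      _ ≤ _ := mul_le_mul_of_nonneg_left (pow_le_pow_right₀ hQ ex) (by positivity)
  have zc' : ((ZO r q).ncard : ℝ) ≤ 24 := by exact_mod_cast zc
  calc (S.ncard : ℝ) ≤ _ := c2
    _ ≤ 24 * (((2 * B + 1) ^ r * D) * Q ^ oddOrder (2 * r + 1)) :=
        mul_le_mul zc' d1 (by positivity) (by norm_num)
    _ = 24 * ((2 * B + 1) ^ r * D) * Q ^ oddOrder (2 * r + 1) := by ring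

end Pool.Agent.H596.PDp18
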