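import Mathlib

set_option autoImplicit false

/-! Quadratic forms in the elements of a space `L` modulo `L`. -/

namespace Pool.Agent.H596.Quad

open Finset Module

variable {K : Type} [Field K] [Algebra K ℂ] {ι : Type} [Fintype ι]

/-- a basis of the kernel of a linear map on a subspace -/
theorem exists_basis {k V W : Type} [Field k] [AddCommGroup V] [Module k V] [FiniteDimensional k V]
    [AddCommGroup W] [Module k W] (S : Submodule k V) (f : S →ₗ[k] W) :
    ∃ B : Fin (finrank k (LinearMap.ker f)) → V, LinearIndependent k B ∧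
      ∀ i, ∃ h : B i ∈ S, f ⟨B i, h⟩ = 0 := by
  let B0 := Module.finBasis k (LinearMap.ker f)
  refine ⟨fun i => ((B0 i : S) : V), ?_, fun i => ⟨((B0 i : S)).2, (B0 i).2⟩⟩
  have h1 := B0.linearIndependent.map' (LinearMap.ker f).subtype (Submodule.ker_subtype _)
  exact h1.map' S.subtype (Submodule.ker_subtype _)

theorem finrank_split {k V W : Type} [Field k] [AddCommGroup V] [Module k V] [FiniteDimensional k V]
    [AddCommGroup W] [Module k W] [FiniteDimensional k W] (S : Submodule k V) (f : S →ₗ[k] W) :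
    finrank k S ≤ finrank k W + finrank k (LinearMap.ker f) := by
  rw [← LinearMap.finrank_range_add_finrank_ker f]
  exact Nat.add_le_add_right (Submodule.finrank_le _) _

/-- the value of the quadratic form with the matrix `S` at `t` -/
noncomputable def qv (t : ι → ℂ) (S : ι → ι → K) : ℂ := ∑ i, ∑ j, S i j • (t i * t j)

/-- the symmetric matrices with value in `L` -/
noncomputable def N (L : Submodule K ℂ) (t : ι → ℂ) : Submodule K (ι → ι → K) :=
  { carrier := {S | (∀ i j, S i j = S j i) ∧ qv t S ∈ L}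
    add_mem' := by
      rintro S T ⟨h1, h2⟩ ⟨h3, h4⟩
      refine ⟨fun i j => by simp [h1 i j, h3 i j], ?_⟩
      have : qv t (S + T) = qv t S + qv t T := by
        simp [qv, add_smul, sum_add_distrib]
      rw [this]
      exact L.add_mem h2 h4
    zero_mem' := ⟨fun _ _ => rfl, by simp [qv]⟩
    smul_mem' := by
      rintro c S ⟨h1, h2⟩
      refine ⟨fun i j => by simp [h1 i j], ?_⟩
      have : qv t (c • S) = c • qv t S := by
        simp [qv, smul_sum, smul_smul]
      rw [this]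
      exact L.smul_mem _ h2 }

/-- independence with one, for an arbitrary index type -/
def Ind' (K : Type) [Field K] [Algebra K ℂ] (t : ι → ℂ) : Prop :=
  ∀ (a : K) (b : ι → K), a • (1 : ℂ) + ∑ i, b i • t i = 0 → a = 0 ∧ ∀ i, b i = 0

/-- the bound for the number of relations -/
def HP (L : Submodule K ℂ) : Prop :=
  ∀ (κ : Type) [Fintype κ] (d : ℕ) (x : Fin d → ℂ) (a : Fin d → κ → ℂ), LinearIndependent K x →
    (∀ i j, a i j ∈ L) → (∀ j, ∑ i, x i * a i j = 0) → LinearIndependent K (fun j i => a i j) →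
    Fintype.card κ ≤ d * (d - 1)

section block

variable {e f : ℕ}

/-- the restriction to the last block -/
noncomputable def rho (L : Submodule K ℂ) (t : Fin e ⊕ Fin f → ℂ) :
    N L t →ₗ[K] ((Σ j : Fin f, Fin (j.1 + 1)) → K) :=
  { toFun := fun S p => S.1 (Sum.inr p.1) (Sum.inr ⟨p.2.1, lt_of_lt_of_le p.2.2 p.1.2⟩)
    map_add' := by intro S T; rfl
    map_smul' := by intro c S; rfl }

theorem ker_rho {L : Submodule K ℂ} {t : Fin e ⊕ Fin f → ℂ} {S : N L t} (h : S ∈ LinearMap.ker (rho L t))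
    (i j : Fin f) : S.1 (Sum.inr i) (Sum.inr j) = 0 := by
  rw [LinearMap.mem_ker] at h
  rcases le_total j.1 i.1 with hij | hij
  · exact congrFun h ⟨i, ⟨j.1, Nat.lt_succ_of_le hij⟩⟩
  · rw [S.2.1]
    exact congrFun h ⟨j, ⟨i.1, Nat.lt_succ_of_le hij⟩⟩

/-- the rows -/
noncomputable def xr (t : Fin e ⊕ Fin f → ℂ) : Fin (e + 1) → ℂ := Fin.cons 1 (fun i => t (Sum.inl i))

/-- the columns -/
noncomputable def ac (t : Fin e ⊕ Fin f → ℂ) {r : ℕ} (B : Fin r → (Fin e ⊕ Fin f → Fin e ⊕ Fin f → K)) :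
    Fin (e + 1) → (Fin r ⊕ (Σ j : Fin e, Fin j.1)) ⊕ Fin e → ℂ
  | i, Sum.inl (Sum.inl k) => (Fin.cons (-(qv t (B k)))
      (fun i => ∑ j, B k (Sum.inl i) (Sum.inl j) • t (Sum.inl j) +
        ∑ j, (2 * B k (Sum.inl i) (Sum.inr j)) • t (Sum.inr j)) : Fin (e + 1) → ℂ) i
  | i, Sum.inl (Sum.inr p) => (Fin.cons 0
      (fun i => (if i = p.1 then t (Sum.inl ⟨p.2.1, p.2.2.trans p.1.2⟩) else 0) -
        (if i.1 = p.2.1 then t (Sum.inl p.1) else 0)) : Fin (e + 1) → ℂ) i
  | i, Sum.inr q => (Fin.cons (-(t (Sum.inl q))) (fun i => if i = q then 1 else 0) : Fin (e + 1) → ℂ) i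

theorem xr_indep {t : Fin e ⊕ Fin f → ℂ} (hi : Ind' K t) : LinearIndependent K (xr t) := by
  rw [Fintype.linearIndependent_iff]
  intro g hg
  rw [Fin.sum_univ_succ] at hg
  simp only [xr, Fin.cons_zero, Fin.cons_succ] at hg
  obtain ⟨h1, h2⟩ := hi (g 0) (Sum.elim (fun i => g i.succ) (fun _ => 0)) (by
    rw [Fintype.sum_sum_type]
    simp only [Sum.elim_inl, Sum.elim_inr, zero_smul, sum_const_zero, add_zero]
    exact hg)
  intro i
  refine Fin.cases h1 (fun j => ?_) i
  exact h2 (Sum.inl j)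

/-- the relations -/
theorem relations {t : Fin e ⊕ Fin f → ℂ} {r : ℕ} (B : Fin r → (Fin e ⊕ Fin f → Fin e ⊕ Fin f → K))
    (hBsym : ∀ k i j, B k i j = B k j i) (hB0 : ∀ k i j, B k (Sum.inr i) (Sum.inr j) = 0)
    (k : (Fin r ⊕ (Σ j : Fin e, Fin j.1)) ⊕ Fin e) : ∑ i, xr t i * ac t B i k = 0 := by
  rw [Fin.sum_univ_succ]
  rcases k with (k | p) | q
  · simp only [xr, ac, Fin.cons_zero, Fin.cons_succ]
    have h1 : qv t (B k) = ∑ i : Fin e, ∑ j : Fin e, B k (Sum.inl i) (Sum.inl j) •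
        (t (Sum.inl i) * t (Sum.inl j)) + ∑ i : Fin e, ∑ j : Fin f,
        (2 * B k (Sum.inl i) (Sum.inr j)) • (t (Sum.inl i) * t (Sum.inr j)) := by
      rw [qv, Fintype.sum_sum_type]
      simp only [Fintype.sum_sum_type, hB0, sum_add_distrib, zero_smul, sum_const_zero, add_zero]
      have h2 : ∑ i : Fin f, ∑ j : Fin e, B k (Sum.inr i) (Sum.inl j) •
          (t (Sum.inr i) * t (Sum.inl j)) = ∑ i : Fin e, ∑ j : Fin f,
          B k (Sum.inl i) (Sum.inr j) • (t (Sum.inl i) * t (Sum.inr j)) := by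
        rw [sum_comm]
        refine sum_congr rfl fun i _ => sum_congr rfl fun j _ => ?_
        rw [hBsym k (Sum.inr j) (Sum.inl i), mul_comm (t (Sum.inr j))]
      rw [h2, add_assoc, ← sum_add_distrib]
      congr 1
      refine sum_congr rfl fun i _ => ?_
      rw [← sum_add_distrib]
      refine sum_congr rfl fun j _ => ?_
      rw [← add_smul, two_mul]
    rw [h1]
    simp only [mul_add, mul_sum, sum_add_distrib, mul_smul_comm]
    ring
  · simp only [xr, ac, Fin.cons_zero, Fin.cons_succ, mul_sub, sum_sub_distrib, mul_ite, mul_zero]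
    have h5 : ∀ i : Fin e, (if i.1 = p.2.1 then t (Sum.inl i) * t (Sum.inl p.1) else 0) =
        if i = ⟨p.2.1, p.2.2.trans p.1.2⟩ then t (Sum.inl i) * t (Sum.inl p.1) else 0 := by
      intro i
      simp only [Fin.ext_iff]
    simp only [h5, sum_ite_eq', mem_univ, if_true]
    ring
  · simp only [xr, ac, Fin.cons_zero, Fin.cons_succ, mul_ite, mul_zero, mul_one, sum_ite_eq',
      mem_univ, if_true]
    ring

/-- the antisymmetric part of a relation -/
def sg {r : ℕ} (g : (Fin r ⊕ (Σ j : Fin e, Fin j.1)) ⊕ Fin e → K) (i j : Fin e) : K :=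
  (if h : j.1 < i.1 then g (Sum.inl (Sum.inr ⟨i, ⟨j.1, h⟩⟩)) else 0) -
  (if h : i.1 < j.1 then g (Sum.inl (Sum.inr ⟨j, ⟨i.1, h⟩⟩)) else 0)

omit [Algebra K ℂ] in
theorem sg_anti {r : ℕ} (g : (Fin r ⊕ (Σ j : Fin e, Fin j.1)) ⊕ Fin e → K) (i j : Fin e) :
    sg g i j = - sg g j i := by
  simp only [sg]
  ring

theorem sum_sg {t : Fin e ⊕ Fin f → ℂ} {r : ℕ} (g : (Fin r ⊕ (Σ j : Fin e, Fin j.1)) ⊕ Fin e → K)
    (i : Fin e) : ∑ p : (Σ j : Fin e, Fin j.1), g (Sum.inl (Sum.inr p)) •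
          ((if i = p.1 then t (Sum.inl ⟨p.2.1, p.2.2.trans p.1.2⟩) else 0) -
          (if i.1 = p.2.1 then t (Sum.inl p.1) else 0)) = ∑ j : Fin e, sg g i j • t (Sum.inl j) := by
  simp only [smul_sub, sum_sub_distrib, sg, sub_smul]
  have e1 : ∑ p : (Σ j : Fin e, Fin j.1), g (Sum.inl (Sum.inr p)) •
      (if i = p.1 then t (Sum.inl ⟨p.2.1, p.2.2.trans p.1.2⟩) else 0) =
      ∑ j : Fin e, (if h : j.1 < i.1 then g (Sum.inl (Sum.inr ⟨i, ⟨j.1, h⟩⟩)) else 0) •
        t (Sum.inl j) := by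
    rw [Fintype.sum_sigma]
    rw [sum_eq_single i (by
      intro b _ hb
      apply sum_eq_zero
      intro x _
      rw [if_neg (fun h => hb h.symm), smul_zero]) (by simp)]
    simp only [if_true]
    rw [← Finset.sum_filter_add_sum_filter_not univ (fun j : Fin e => j.1 < i.1)]
    have z1 : ∑ j ∈ univ.filter (fun j : Fin e => ¬ j.1 < i.1),
        (if h : j.1 < i.1 then g (Sum.inl (Sum.inr ⟨i, ⟨j.1, h⟩⟩)) else 0) •
        t (Sum.inl j) = 0 := by
      apply sum_eq_zero
      intro j hj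
      rw [mem_filter] at hj
      rw [dif_neg hj.2, zero_smul]
    rw [z1, add_zero]
    refine sum_bij (fun (x : Fin i.1) _ => (⟨x.1, x.2.trans i.2⟩ : Fin e)) ?_ ?_ ?_ ?_
    · intro x _
      rw [mem_filter]
      exact ⟨mem_univ _, x.2⟩
    · intro x _ y _ h
      exact Fin.ext (Fin.mk.inj h)
    · intro j hj
      rw [mem_filter] at hj
      exact ⟨⟨j.1, hj.2⟩, mem_univ _, rfl⟩
    · intro x _
      rw [dif_pos x.2]
  have e2 : ∑ p : (Σ j : Fin e, Fin j.1), g (Sum.inl (Sum.inr p)) •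
      (if i.1 = p.2.1 then t (Sum.inl p.1) else 0) =
      ∑ j : Fin e, (if h : i.1 < j.1 then g (Sum.inl (Sum.inr ⟨j, ⟨i.1, h⟩⟩)) else 0) •
        t (Sum.inl j) := by
    rw [Fintype.sum_sigma]
    refine sum_congr rfl fun j _ => ?_
    by_cases h : i.1 < j.1
    · rw [dif_pos h, sum_eq_single ⟨i.1, h⟩]
      · rw [if_pos rfl]
      · intro x _ hx
        rw [if_neg (fun h' => hx (Fin.ext h'.symm)), smul_zero]
      · simp
    · rw [dif_neg h, zero_smul]
      apply sum_eq_zero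
      intro x _
      rw [if_neg (fun h' => h (lt_of_eq_of_lt h' x.2)), smul_zero]
  rw [e1, e2]

theorem cols_indep (h2 : (2 : K) ≠ 0) {t : Fin e ⊕ Fin f → ℂ} (hi : Ind' K t) {r : ℕ}
    (B : Fin r → (Fin e ⊕ Fin f → Fin e ⊕ Fin f → K))
    (hBsym : ∀ k i j, B k i j = B k j i) (hB0 : ∀ k i j, B k (Sum.inr i) (Sum.inr j) = 0)
    (hBli : LinearIndependent K B) : LinearIndependent K (fun j i => ac t B i j) := by
  classical
  rw [Fintype.linearIndependent_iff]
  intro g hg
  have hrow : ∀ i : Fin e, ∑ k : Fin r, g (Sum.inl (Sum.inl k)) •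
        (∑ j, B k (Sum.inl i) (Sum.inl j) • t (Sum.inl j) +
      ∑ j, (2 * B k (Sum.inl i) (Sum.inr j)) • t (Sum.inr j)) +
      ∑ p : (Σ j : Fin e, Fin j.1), g (Sum.inl (Sum.inr p)) •
        ((if i = p.1 then t (Sum.inl ⟨p.2.1, p.2.2.trans p.1.2⟩) else 0) -
        (if i.1 = p.2.1 then t (Sum.inl p.1) else 0)) + g (Sum.inr i) • (1 : ℂ) = 0 := by
    intro i
    have h1 := congrFun hg i.succ
    rw [Finset.sum_apply, Pi.zero_apply, Fintype.sum_sum_type, Fintype.sum_sum_type] at h1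
    simp only [Pi.smul_apply, ac, Fin.cons_succ] at h1
    have h3 : ∑ x : Fin e, g (Sum.inr x) • (if i = x then (1 : ℂ) else 0) = g (Sum.inr i) • (1 : ℂ) := by
      simp only [smul_ite, smul_zero, sum_ite_eq, mem_univ, if_true]
    rw [h3] at h1
    exact h1
  have hco : ∀ i : Fin e, g (Sum.inr i) = 0 ∧
      (∀ j : Fin e, ∑ k : Fin r, g (Sum.inl (Sum.inl k)) * B k (Sum.inl i) (Sum.inl j) + sg g i j = 0) ∧
      ∀ j : Fin f, ∑ k : Fin r, g (Sum.inl (Sum.inl k)) * B k (Sum.inl i) (Sum.inr j) = 0 := by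
    intro i
    have h1 := hrow i
    rw [sum_sg g i] at h1
    obtain ⟨h3, h4⟩ := hi (g (Sum.inr i)) (Sum.elim
      (fun j => ∑ k : Fin r, g (Sum.inl (Sum.inl k)) * B k (Sum.inl i) (Sum.inl j) + sg g i j)
      (fun j => ∑ k : Fin r, g (Sum.inl (Sum.inl k)) * (2 * B k (Sum.inl i) (Sum.inr j)))) (by
      rw [← h1, Fintype.sum_sum_type]
      simp only [Sum.elim_inl, Sum.elim_inr]
      simp only [add_smul, sum_add_distrib, smul_add, sum_smul, smul_sum, smul_smul]
      rw [sum_comm (s := (univ : Finset (Fin e))), sum_comm (s := (univ : Finset (Fin f)))]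
      ring)
    refine ⟨h3, fun j => h4 (Sum.inl j), fun j => ?_⟩
    have := h4 (Sum.inr j)
    simp only [Sum.elim_inr] at this
    have h5 : 2 * ∑ k : Fin r, g (Sum.inl (Sum.inl k)) * B k (Sum.inl i) (Sum.inr j) = 0 := by
      rw [← this, mul_sum]
      exact sum_congr rfl fun k _ => by ring
    exact (mul_eq_zero.1 h5).resolve_left h2
  have hS : ∀ i j, ∑ k : Fin r, g (Sum.inl (Sum.inl k)) * B k i j = 0 := by
    intro i j
    rcases i with i | i <;> rcases j with j | j
    · have h1 := (hco i).2.1 j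
      have h3 := (hco j).2.1 i
      have h4 : ∑ k : Fin r, g (Sum.inl (Sum.inl k)) * B k (Sum.inl j) (Sum.inl i) =
          ∑ k : Fin r, g (Sum.inl (Sum.inl k)) * B k (Sum.inl i) (Sum.inl j) :=
        sum_congr rfl fun k _ => by rw [hBsym k]
      rw [h4] at h3
      have h5 := sg_anti g i j
      have h6 : 2 * ∑ k : Fin r, g (Sum.inl (Sum.inl k)) * B k (Sum.inl i) (Sum.inl j) = 0 := by
        linear_combination h1 + h3 - h5
      exact (mul_eq_zero.1 h6).resolve_left h2
    · exact (hco i).2.2 j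
    · have h3 : ∑ k : Fin r, g (Sum.inl (Sum.inl k)) * B k (Sum.inr i) (Sum.inl j) =
          ∑ k : Fin r, g (Sum.inl (Sum.inl k)) * B k (Sum.inl j) (Sum.inr i) :=
        sum_congr rfl fun k _ => by rw [hBsym k]
      rw [h3]
      exact (hco j).2.2 i
    · simp [hB0]
  have hk : ∀ k : Fin r, g (Sum.inl (Sum.inl k)) = 0 := by
    rw [Fintype.linearIndependent_iff] at hBli
    apply hBli
    funext i j
    have := hS i j
    simpa [Finset.sum_apply] using this
  intro k
  rcases k with (k | p) | q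
  · exact hk k
  · have h1 := (hco p.1).2.1 ⟨p.2.1, p.2.2.trans p.1.2⟩
    rw [sum_eq_zero (fun k _ => by rw [hk k, zero_mul]), zero_add] at h1
    simp only [sg] at h1
    have hlt := p.2.2
    rw [dif_pos p.2.2, dif_neg (by omega), sub_zero] at h1
    exact h1
  · exact (hco q).1

theorem finrank_ker (h2 : (2 : K) ≠ 0) {L : Submodule K ℂ} (hL : HP L) (h1L : (1 : ℂ) ∈ L)
    {t : Fin e ⊕ Fin f → ℂ} (ht : ∀ i, t i ∈ L) (hi : Ind' K t) :
    finrank K (LinearMap.ker (rho L t)) + e * (e - 1) / 2 + e ≤ (e + 1) * e := by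
  classical
  obtain ⟨B, hBli, hB⟩ := exists_basis (N L t) (rho L t)
  have hBsym : ∀ k i j, B k i j = B k j i := fun k => (hB k).1.1
  have hBL : ∀ k, qv t (B k) ∈ L := fun k => (hB k).1.2
  have hB0 : ∀ k i j, B k (Sum.inr i) (Sum.inr j) = 0 := fun k => by
    obtain ⟨h1, h2⟩ := hB k
    exact ker_rho (S := ⟨B k, h1⟩) h2
  have key := hL ((Fin (finrank K (LinearMap.ker (rho L t))) ⊕ (Σ j : Fin e, Fin j.1)) ⊕ Fin e)
    (e + 1) (xr t) (ac t B) (xr_indep hi) ?_ (relations B hBsym hB0) (cols_indep h2 hi B hBsym hB0 hBli)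
  · rw [Fintype.card_sum, Fintype.card_sum, Fintype.card_sigma] at key
    simp only [Fintype.card_fin] at key
    rw [Fin.sum_univ_eq_sum_range (fun i => i) e, Finset.sum_range_id, Nat.add_sub_cancel] at key
    exact key
  · -- membership
    intro i k
    rcases k with (k | p) | q
    · refine Fin.cases ?_ (fun i => ?_) i
      · exact L.neg_mem (hBL k)
      · show ∑ j, B k (Sum.inl i) (Sum.inl j) • t (Sum.inl j) +
          ∑ j, (2 * B k (Sum.inl i) (Sum.inr j)) • t (Sum.inr j) ∈ L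
        exact L.add_mem (L.sum_mem fun j _ => L.smul_mem _ (ht _))
          (L.sum_mem fun j _ => L.smul_mem _ (ht _))
    · refine Fin.cases ?_ (fun i => ?_) i
      · exact L.zero_mem
      · show (if i = p.1 then t (Sum.inl ⟨p.2.1, p.2.2.trans p.1.2⟩) else 0) -
          (if i.1 = p.2.1 then t (Sum.inl p.1) else 0) ∈ L
        refine L.sub_mem ?_ ?_
        · split_ifs
          · exact ht _
          · exact L.zero_mem
        · split_ifs
          · exact ht _
          · exact L.zero_mem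
    · refine Fin.cases ?_ (fun i => ?_) i
      · exact L.neg_mem (ht _)
      · show (if i = q then (1 : ℂ) else 0) ∈ L
        split_ifs
        · exact h1L
        · exact L.zero_mem

theorem arith (e : ℕ) : e * (e - 1) / 2 + e + e * (e + 1) / 2 = (e + 1) * e := by
  rcases Nat.even_or_odd' e with ⟨c, rfl | rfl⟩
  · have h1 : 2 * c * (2 * c - 1) / 2 = c * (2 * c - 1) := by
      rw [mul_assoc, Nat.mul_div_cancel_left _ (by norm_num)]
    have h2 : 2 * c * (2 * c + 1) / 2 = c * (2 * c + 1) := by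
      rw [mul_assoc, Nat.mul_div_cancel_left _ (by norm_num)]
    rw [h1, h2]
    rcases Nat.eq_zero_or_pos c with h | h
    · subst h; rfl
    · obtain ⟨d, rfl⟩ : ∃ d, c = d + 1 := ⟨c - 1, by omega⟩
      have : 2 * (d + 1) - 1 = 2 * d + 1 := by omega
      rw [this]
      ring
  · have h1 : (2 * c + 1) * (2 * c + 1 - 1) / 2 = (2 * c + 1) * c := by
      rw [Nat.add_sub_cancel, show (2 * c + 1) * (2 * c) = 2 * ((2 * c + 1) * c) by ring,
        Nat.mul_div_cancel_left _ (by norm_num)]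
    have h2 : (2 * c + 1) * (2 * c + 1 + 1) / 2 = (2 * c + 1) * (c + 1) := by
      rw [show (2 * c + 1) * (2 * c + 1 + 1) = 2 * ((2 * c + 1) * (c + 1)) by ring,
        Nat.mul_div_cancel_left _ (by norm_num)]
    rw [h1, h2]
    ring

theorem finrank_N_block (h2 : (2 : K) ≠ 0) {L : Submodule K ℂ} (hL : HP L) (h1L : (1 : ℂ) ∈ L)
    {t : Fin e ⊕ Fin f → ℂ} (ht : ∀ i, t i ∈ L) (hi : Ind' K t) :
    finrank K (N L t) ≤ e * (e + 1) / 2 + f * (f + 1) / 2 := by
  classical
  have h1 := finrank_split (N L t) (rho L t)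
  have h3 : finrank K ((Σ j : Fin f, Fin (j.1 + 1)) → K) ≤ f * (f + 1) / 2 := by
    rw [Module.finrank_fintype_fun_eq_card, Fintype.card_sigma]
    simp only [Fintype.card_fin]
    rw [Fin.sum_univ_eq_sum_range (fun i => i + 1) f]
    have h4 : ∑ i ∈ range f, (i + 1) = ∑ i ∈ range (f + 1), i := by
      rw [sum_range_succ']
      simp
    rw [h4, Finset.sum_range_id, Nat.add_sub_cancel, mul_comm]
  have h4 := finrank_ker h2 hL h1L ht hi
  have h5 := arith e
  omega

end block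

theorem arith2 (m : ℕ) : (m / 2) * (m / 2 + 1) / 2 + (m - m / 2) * (m - m / 2 + 1) / 2 =
    (m + 1) ^ 2 / 4 := by
  have tri : ∀ e : ℕ, ∃ c, e * (e + 1) = 2 * c ∧ e * (e + 1) / 2 = c := by
    intro e
    obtain ⟨c, hc⟩ := Nat.even_mul_succ_self e
    refine ⟨c, by omega, by omega⟩
  rcases Nat.even_or_odd' m with ⟨c, rfl | rfl⟩
  · have h1 : 2 * c / 2 = c := by omega
    rw [h1, show 2 * c - c = c by omega]
    obtain ⟨d, h2, h3⟩ := tri c
    rw [h3]
    have : (2 * c + 1) ^ 2 = 4 * (c * (c + 1)) + 1 := by ring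
    rw [this, h2]
    omega
  · have h1 : (2 * c + 1) / 2 = c := by omega
    rw [h1, show 2 * c + 1 - c = c + 1 by omega]
    obtain ⟨d, h2, h3⟩ := tri c
    obtain ⟨d', h2', h3'⟩ := tri (c + 1)
    rw [h3, h3']
    have h4 : (2 * c + 1 + 1) ^ 2 = 4 * ((c + 1) * (c + 1)) := by ring
    rw [h4, Nat.mul_div_cancel_left _ (by norm_num)]
    have h5 : 2 * (d + d') = 2 * ((c + 1) * (c + 1)) := by
      rw [mul_add, ← h2, ← h2']; ring
    omega

/-- **Half of the quadratic forms.** -/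
theorem finrank_N {m : ℕ} (h2 : (2 : K) ≠ 0) {L : Submodule K ℂ} (hL : HP L) (h1L : (1 : ℂ) ∈ L)
    {t : Fin m → ℂ} (ht : ∀ i, t i ∈ L) (hi : Ind' K t) : finrank K (N L t) ≤ (m + 1) ^ 2 / 4 := by
  classical
  let φ : Fin (m / 2) ⊕ Fin (m - m / 2) ≃ Fin m :=
    finSumFinEquiv.trans (finCongr (by omega))
  have hi' : Ind' K (fun i => t (φ i)) := by
    intro a b h
    obtain ⟨h3, h4⟩ := hi a (fun i => b (φ.symm i)) (by
      rw [← h]
      congr 1
      rw [← Equiv.sum_comp φ]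
      simp)
    refine ⟨h3, fun i => ?_⟩
    have := h4 (φ i)
    simpa using this
  have key := finrank_N_block h2 hL h1L (t := fun i => t (φ i)) (fun i => ht _) hi'
  rw [arith2] at key
  refine le_trans ?_ key
  let F : N L t →ₗ[K] N L (fun i => t (φ i)) :=
    { toFun := fun S => ⟨fun i j => S.1 (φ i) (φ j), fun i j => S.2.1 _ _, by
        have : qv (fun i => t (φ i)) (fun i j => S.1 (φ i) (φ j)) = qv t S.1 := by
          rw [qv, qv, ← Equiv.sum_comp φ]
          refine sum_congr rfl fun i _ => ?_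
          rw [← Equiv.sum_comp φ]
        rw [this]
        exact S.2.2⟩
      map_add' := by intro S T; rfl
      map_smul' := by intro c S; rfl }
  refine LinearMap.finrank_le_finrank_of_injective (f := F) ?_
  intro S T h
  apply Subtype.ext
  funext i j
  have := congrArg (fun X => X.1 (φ.symm i) (φ.symm j)) h
  simpa [F] using this

end Pool.Agent.H596.Quad
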