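import Mathlib
import Pool.Graph.R_seed8.H335R2.MThm
import Pool.Agent.H596.Iso
import Pool.Agent.H596.Four

set_option autoImplicit false

/-! Squares of linear forms in logarithms. -/

namespace Pool.Agent.H596.Sq

open Complex Finset Pool.Agent.H301R2.SSE Pool.Agent.H335R2

/-- the linear map `b ↦ ∑ b_i t_i` -/
noncomputable def T {m : ℕ} (t : Fin m → ℂ) : (Fin m → QB) →ₗ[QB] ℂ :=
  { toFun := fun b => ∑ i, (b i : ℂ) * t i
    map_add' := by intro x y; simp [add_mul, sum_add_distrib]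
    map_smul' := by
      intro c x
      simp only [Pi.smul_apply, smul_eq_mul, RingHom.id_apply, mul_sum, Algebra.smul_def]
      refine sum_congr rfl fun i _ => ?_
      rw [← mul_assoc]
      rfl }

theorem T_apply {m : ℕ} (t : Fin m → ℂ) (b : Fin m → QB) : T t b = ∑ i, (b i : ℂ) * t i := rfl

/-- `1, t_1, …, t_m` are linearly independent over the algebraic numbers -/
def Ind {m : ℕ} (t : Fin m → ℂ) : Prop :=
  ∀ (a : ℂ) (b : Fin m → ℂ), IsAlgebraic ℚ a → (∀ i, IsAlgebraic ℚ (b i)) → a + ∑ i, b i * t i = 0 →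
    a = 0 ∧ ∀ i, b i = 0

theorem T_mem {m : ℕ} {t : Fin m → ℂ} (ht : ∀ i, t i ∈ Lt) (b : Fin m → QB) : T t b ∈ Lt := by
  rw [T_apply]
  exact Lt.sum_mem fun i _ => Lt_mul (mem_QB.1 (b i).2) (ht i)

theorem lin {m : ℕ} {t : Fin m → ℂ} (hi : Ind t) {z w : Fin m → QB} {a b c : ℂ} (ha : IsAlgebraic ℚ a)
    (hb : IsAlgebraic ℚ b) (hc : IsAlgebraic ℚ c) (h : a + b * T t z + c * T t w = 0) :
    a = 0 ∧ ∀ i, b * z i + c * w i = 0 := by
  refine hi a (fun i => b * z i + c * w i) ha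
    (fun i => (hb.mul (mem_QB.1 (z i).2)).add (hc.mul (mem_QB.1 (w i).2))) ?_
  rw [← h, T_apply, T_apply, mul_sum, mul_sum, add_assoc, ← sum_add_distrib]
  congr 1
  exact sum_congr rfl fun i _ => by ring

theorem exists_ne {m : ℕ} {z : Fin m → QB} (hz : z ≠ 0) : ∃ i, (z i : ℂ) ≠ 0 := by
  obtain ⟨i, hi⟩ := Function.ne_iff.1 hz
  exact ⟨i, fun h => hi (Subtype.ext h)⟩

/-- the consequence of the strong six exponentials theorem -/
theorem partner {m : ℕ} {t : Fin m → ℂ} (ht : ∀ i, t i ∈ Lt) (hi : Ind t) {z w : Fin m → QB} (hz : z ≠ 0)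
    (hzz : T t z * T t z ∈ Lt) (hzw : T t z * T t w ∈ Lt) : ∃ c : QB, w = c • z := by
  by_contra hcon
  push Not at hcon
  obtain ⟨i, hzi⟩ := exists_ne hz
  refine roy 1 (T t z) 1 (T t z) (T t w) ?_ ?_ ?_ ?_ ?_ ?_ hzz hzw
  · intro a b ha hb h
    obtain ⟨h1, h2⟩ := lin hi (z := z) (w := 0) ha hb isAlgebraic_zero (c := 0) (by
      rw [zero_mul, add_zero, ← h, mul_one])
    refine ⟨h1, ?_⟩
    have := h2 i
    rw [zero_mul, add_zero] at this
    exact (mul_eq_zero.1 this).resolve_right hzi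
  · intro a b c ha hb hc h
    obtain ⟨h1, h2⟩ := lin hi (z := z) (w := w) ha hb hc (by rw [← h, mul_one])
    have hc0 : c = 0 := by
      by_contra hc0
      refine hcon ⟨-b / c, mem_QB.2 (by rw [div_eq_mul_inv]; exact hb.neg.mul hc.inv)⟩ ?_
      funext j
      apply Subtype.ext
      show (w j : ℂ) = -b / c * (z j : ℂ)
      field_simp
      linear_combination h2 j
    refine ⟨h1, ?_, hc0⟩
    have := h2 i
    rw [hc0, zero_mul, add_zero] at this
    exact (mul_eq_zero.1 this).resolve_right hzi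
  · rw [one_mul]; exact Lt_one
  · rw [one_mul]; exact T_mem ht z
  · rw [one_mul]; exact T_mem ht w
  · rw [mul_one]; exact T_mem ht z

theorem smul_mem {a z : ℂ} (ha : IsAlgebraic ℚ a) (hz : z ∈ Lt) : a * z ∈ Lt := Lt_mul ha hz

/-- the product modulo `𝓛` -/
noncomputable def P {m : ℕ} (t : Fin m → ℂ) : (Fin m → QB) →ₗ[QB] (Fin m → QB) →ₗ[QB] (ℂ ⧸ Lt) :=
  LinearMap.mk₂ QB (fun (x y : Fin m → QB) => Lt.mkQ (T t x * T t y))
    (by intro x x' y; simp only [map_add, add_mul])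
    (by
      intro c x y
      rw [(T t).map_smul c x, smul_mul_assoc c (T t x) (T t y), Lt.mkQ.map_smul])
    (by intro x y y'; simp only [map_add, mul_add])
    (by
      intro c x y
      rw [(T t).map_smul c y, mul_smul_comm c (T t x) (T t y), Lt.mkQ.map_smul])

theorem P_apply {m : ℕ} (t : Fin m → ℂ) (x y : Fin m → QB) : P t x y = Lt.mkQ (T t x * T t y) := rfl

theorem P_eq_zero {m : ℕ} (t : Fin m → ℂ) (x y : Fin m → QB) : P t x y = 0 ↔ T t x * T t y ∈ Lt := by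
  rw [P_apply, Submodule.mkQ_apply, Submodule.Quotient.mk_eq_zero]

theorem P_symm {m : ℕ} (t : Fin m → ℂ) (x y : Fin m → QB) : P t x y = P t y x := by
  rw [P_apply, P_apply, mul_comm]

/-- the consequence of the strong six exponentials theorem, general form -/
theorem small {m : ℕ} {t : Fin m → ℂ} (ht : ∀ i, t i ∈ Lt) (hi : Ind t) : Four.Small (P t) := by
  intro z hz y w h1 h2
  rw [P_eq_zero] at h1 h2
  by_contra hcon
  push Not at hcon
  obtain ⟨i, hzi⟩ := exists_ne hz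
  refine roy 1 (T t z) 1 (T t y) (T t w) ?_ ?_ ?_ ?_ ?_ ?_ h1 h2
  · intro a b ha hb h
    obtain ⟨h1, h2⟩ := lin hi (z := z) (w := 0) ha hb isAlgebraic_zero (c := 0) (by
      rw [zero_mul, add_zero, ← h, mul_one])
    refine ⟨h1, ?_⟩
    have := h2 i
    rw [zero_mul, add_zero] at this
    exact (mul_eq_zero.1 this).resolve_right hzi
  · intro a b c ha hb hc h
    obtain ⟨h1, h2⟩ := lin hi (z := y) (w := w) ha hb hc (by rw [← h, mul_one])
    by_contra hne
    refine hcon ⟨b, mem_QB.2 hb⟩ ⟨c, mem_QB.2 hc⟩ ?_ ?_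
    · intro hbc hbc'
      exact hne ⟨h1, congrArg Subtype.val hbc, congrArg Subtype.val hbc'⟩
    · funext j
      exact Subtype.ext (h2 j)
  · rw [one_mul]; exact Lt_one
  · rw [one_mul]; exact T_mem ht y
  · rw [one_mul]; exact T_mem ht w
  · rw [mul_one]; exact T_mem ht z

/-- the bound for the number of lines -/
def bd (n : ℕ) : ℕ := if n = 2 then 3 else 2 ^ n

/-- the bound for sets of pairwise independent vectors -/
theorem card_le {n : ℕ} {t : Fin (n + 1) → ℂ} (ht : ∀ i, t i ∈ Lt) (hi : Ind t)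
    (Z : Finset (Fin (n + 1) → QB)) (hZ0 : ∀ z ∈ Z, z ≠ 0)
    (hZ : ∀ z ∈ Z, ∀ z' ∈ Z, z ≠ z' → ∀ c : QB, z' ≠ c • z)
    (hsq : ∀ z ∈ Z, T t z * T t z ∈ Lt) : Z.card ≤ bd n := by
  classical
  by_cases hn : n = 2
  · subst hn
    rw [bd, if_pos rfl]
    by_contra hlt
    push Not at hlt
    obtain ⟨Z', hZ', hc⟩ := Finset.exists_subset_card_eq (show 4 ≤ Z.card by omega)
    let e := (Z'.equivFinOfCardEq hc).symm
    have hli : LinearIndependent QB (fun i : Fin 4 => ((e i : Fin 3 → QB))) := by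
      rw [Fintype.linearIndependent_iff]
      intro c h i
      have := Four.four (by norm_num) (P_symm t) (small ht hi) (fun i : Fin 4 => ((e i : Fin 3 → QB)))
        (fun i => hZ0 _ (hZ' (e i).2)) (fun i j hij r => hZ _ (hZ' (e i).2) _ (hZ' (e j).2)
          (fun h => hij (e.injective (Subtype.ext h))) r)
        (fun i => (P_eq_zero t _ _).2 (hsq _ (hZ' (e i).2))) c h
      exact congrFun this i
    have := hli.fintype_card_le_finrank
    rw [Module.finrank_fintype_fun_eq_card, Fintype.card_fin, Fintype.card_fin] at this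
    omega
  · rw [bd, if_neg hn]
    refine Iso.card_isotropic (by norm_num) (P t) (P_symm t) Z hZ0 hZ
      (fun z hz => (P_eq_zero t z z).2 (hsq z hz)) ?_
    intro z hz w hw
    exact partner ht hi (hZ0 z hz) (hsq z hz) ((P_eq_zero t z w).1 hw)

theorem four {m : ℕ} {t : Fin m → ℂ} (ht : ∀ i, t i ∈ Lt) (hi : Ind t) (z : Fin 4 → Fin m → QB)
    (hz0 : ∀ i, z i ≠ 0) (hz : ∀ i j, i ≠ j → ∀ r : QB, z j ≠ r • z i)
    (he : ∀ i, T t (z i) * T t (z i) ∈ Lt) (c : Fin 4 → QB) (h : ∑ i, c i • z i = 0) : c = 0 :=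
  Four.four (by norm_num) (P_symm t) (small ht hi) z hz0 hz (fun i => (P_eq_zero t _ _).2 (he i)) c h

/-- a maximal set of pairwise independent vectors -/
theorem exists_max {m N : ℕ} (E : Set (Fin m → QB))
    (hE : ∀ Z : Finset (Fin m → QB), (∀ z ∈ Z, z ∈ E) →
      (∀ z ∈ Z, ∀ z' ∈ Z, z ≠ z' → ∀ c : QB, z' ≠ c • z) → Z.card ≤ N) (h0 : (0 : Fin m → QB) ∉ E) :
    ∃ Z : Finset (Fin m → QB), Z.card ≤ N ∧ (∀ z ∈ Z, z ∈ E) ∧
      ∀ b ∈ E, ∃ z ∈ Z, ∃ c : QB, b = c • z := by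
  classical
  let p : ℕ → Prop := fun k => ∃ Z : Finset (Fin m → QB), Z.card = k ∧ (∀ z ∈ Z, z ∈ E) ∧
      (∀ z ∈ Z, ∀ z' ∈ Z, z ≠ z' → ∀ c : QB, z' ≠ c • z)
  have hp0 : p 0 := ⟨∅, by simp, by simp, by simp⟩
  have hp : ∀ k, p k → k ≤ N := by
    rintro k ⟨Z, rfl, h1, h2⟩
    exact hE Z h1 h2
  obtain ⟨Z, hZc, hZE, hZi⟩ := Nat.findGreatest_spec (P := p) (Nat.zero_le N) hp0
  refine ⟨Z, hE Z hZE hZi, hZE, fun b hb => ?_⟩
  by_contra hcon
  push Not at hcon
  have hbZ : b ∉ Z := fun h => hcon b h 1 (by rw [one_smul])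
  have hp1 : p (Z.card + 1) := by
    refine ⟨insert b Z, card_insert_of_notMem hbZ, ?_, ?_⟩
    · intro z hz
      rcases mem_insert.1 hz with rfl | hz
      · exact hb
      · exact hZE z hz
    · intro z hz z' hz' hne c hc
      rcases mem_insert.1 hz with rfl | hz1
      · rcases mem_insert.1 hz' with rfl | hz'
        · exact hne rfl
        · have hc0 : c ≠ 0 := by
            rintro rfl
            rw [zero_smul] at hc
            exact h0 (hc ▸ hZE z' hz')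
          apply hcon z' hz' c⁻¹
          rw [hc, smul_smul, inv_mul_cancel₀ hc0, one_smul]
      · rcases mem_insert.1 hz' with rfl | hz2
        · exact hcon z hz1 c hc
        · exact hZi z hz1 z' hz2 hne c hc
  have h2 := Nat.le_findGreatest (hp _ hp1) hp1
  rw [hZc] at h2
  omega

/-- **Squares.** -/
theorem squares {n : ℕ} {t : Fin (n + 1) → ℂ} (ht : ∀ i, t i ∈ Lt) (hi : Ind t) :
    ∃ S : Finset (Fin (n + 1) → ℂ), S.card ≤ bd n ∧ (∀ s ∈ S, s ≠ 0 ∧ ∀ i, IsAlgebraic ℚ (s i)) ∧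
      ∀ b : Fin (n + 1) → ℂ, (∀ i, IsAlgebraic ℚ (b i)) → b ≠ 0 → (∀ s ∈ S, ∀ r : ℂ, b ≠ r • s) →
        ∀ β : ℂ, IsAlgebraic ℚ β → (β + ∑ i, b i * t i) ^ 2 ∉ Lt := by
  classical
  obtain ⟨Z, hZc, hZE, hZ⟩ := exists_max (N := bd n)
    {z : Fin (n + 1) → QB | z ≠ 0 ∧ T t z * T t z ∈ Lt}
    (fun Z hZ hZi => card_le ht hi Z (fun z hz => (hZ z hz).1) hZi (fun z hz => (hZ z hz).2))
    (fun h => h.1 rfl)
  refine ⟨Z.image (fun z i => (z i : ℂ)), card_image_le.trans hZc, ?_, ?_⟩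
  · intro s hs
    obtain ⟨z, hz, rfl⟩ := mem_image.1 hs
    refine ⟨fun h => (hZE z hz).1 ?_, fun i => mem_QB.1 (z i).2⟩
    funext i
    exact Subtype.ext (congrFun h i)
  · intro b hb hb0 hbS β hβ hmem
    let z : Fin (n + 1) → QB := fun i => ⟨b i, mem_QB.2 (hb i)⟩
    have hz : T t z = ∑ i, b i * t i := rfl
    have hz0 : z ≠ 0 := by
      intro h
      apply hb0
      funext i
      exact congrArg Subtype.val (congrFun h i)
    have hzz : T t z * T t z ∈ Lt := by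
      have e : T t z * T t z = (β + ∑ i, b i * t i) ^ 2 - β * β - 2 * β * T t z := by
        rw [hz]; ring
      rw [e]
      refine Lt.sub_mem (Lt.sub_mem hmem (Lt_alg (hβ.mul hβ))) (Lt_mul ?_ (T_mem ht z))
      exact IsAlgebraic.mul (by simpa using algQ 2) hβ
    obtain ⟨y, hy, c, hc⟩ := hZ z ⟨hz0, hzz⟩
    apply hbS (fun i => (y i : ℂ)) (mem_image_of_mem _ hy) (c : ℂ)
    funext i
    exact congrArg Subtype.val (congrFun hc i)

end Pool.Agent.H596.Sq
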